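import Mathlib

/-!
Coefficient bounds for polynomials that are bounded on the unit interval.
-/

namespace Pool.Agent.MP_9e8696_an.H67

open Polynomial Finset

lemma cheb_deriv_bound (d k : ℕ) (hk : k ≤ d) :
    0 ≤ (derivative^[k] (Chebyshev.T ℝ d)).eval 1 ∧
      (derivative^[k] (Chebyshev.T ℝ d)).eval 1 ≤ ((d : ℝ) ^ 2) ^ k := by
  induction k with
  | zero => simp
  | succ k ih =>
    obtain ⟨h0, h1⟩ := ih (by omega)
    have h := Chebyshev.iterate_derivative_T_eval_one_recurrence (R := ℝ) (d : ℤ) k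
    push_cast at h
    have hkd : (k : ℝ) ≤ d := by exact_mod_cast (by omega : k ≤ d)
    have hk0 : (0 : ℝ) ≤ k := Nat.cast_nonneg k
    have hdk : (0 : ℝ) ≤ (d : ℝ) ^ 2 - (k : ℝ) ^ 2 := by nlinarith
    set x := (derivative^[k + 1] (Chebyshev.T ℝ d)).eval 1 with hx
    set y := (derivative^[k] (Chebyshev.T ℝ d)).eval 1 with hy
    have hx0 : 0 ≤ x := by
      by_contra hneg
      push Not at hneg
      have : 0 ≤ ((d : ℝ) ^ 2 - (k : ℝ) ^ 2) * y := mul_nonneg hdk h0
      nlinarith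
    refine ⟨hx0, ?_⟩
    have h2 : x ≤ (2 * k + 1) * x := by nlinarith
    have h3 : ((d : ℝ) ^ 2 - (k : ℝ) ^ 2) * y ≤ (d : ℝ) ^ 2 * y := by nlinarith [sq_nonneg (k : ℝ)]
    have h4 : (d : ℝ) ^ 2 * y ≤ (d : ℝ) ^ 2 * ((d : ℝ) ^ 2) ^ k :=
      mul_le_mul_of_nonneg_left h1 (sq_nonneg _)
    rw [pow_succ']
    linarith

/-- Markov type bound for the coefficients of a polynomial bounded on `[0,1]`. -/
lemma coeff_bound (P : ℝ[X]) (d : ℕ) (hP : P.natDegree ≤ d) (M : ℝ) (hM : 0 < M)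
    (hb : ∀ u ∈ Set.Icc (0 : ℝ) 1, |P.eval u| ≤ M) (r : ℕ) :
    |P.coeff r| ≤ M * (2 * (d : ℝ) ^ 2) ^ r := by
  by_cases hr : d < r
  · rw [coeff_eq_zero_of_natDegree_lt (lt_of_le_of_lt hP hr)]
    simp only [abs_zero]
    positivity
  push Not at hr
  set P1 : ℝ[X] := C M⁻¹ * P.comp (C (1 / 2 : ℝ) * X) with hP1
  have hP1d : P1.natDegree ≤ d := by
    refine (natDegree_C_mul_le _ _).trans ?_
    refine natDegree_comp_le.trans ?_
    have : (C (1 / 2 : ℝ) * X).natDegree ≤ 1 := (natDegree_C_mul_le _ _).trans (by simp)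
    calc P.natDegree * (C (1 / 2 : ℝ) * X).natDegree ≤ d * 1 := Nat.mul_le_mul hP this
      _ = d := by simp
  have key : ∀ s : ℝ, |s| = 1 → s * (derivative^[r] (P1.comp (1 - X))).eval 1 ≤
      ((d : ℝ) ^ 2) ^ r := by
    intro s hs
    have hdeg : (C s * P1.comp (1 - X)).degree ≤ d := by
      apply degree_le_of_natDegree_le
      refine (natDegree_C_mul_le _ _).trans ?_
      refine natDegree_comp_le.trans ?_
      have : (1 - X : ℝ[X]).natDegree ≤ 1 := by
        refine (natDegree_sub_le _ _).trans ?_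
        simp
      calc P1.natDegree * (1 - X : ℝ[X]).natDegree ≤ d * 1 := Nat.mul_le_mul hP1d this
        _ = d := by simp
    have hbd : ∀ x ∈ Set.Icc (-1 : ℝ) 1, |(C s * P1.comp (1 - X)).eval x| ≤ 1 := by
      intro x hx
      have := hb (1 / 2 * (1 - x)) ⟨by linarith [hx.2], by linarith [hx.1]⟩
      simp only [hP1, eval_mul, eval_C, eval_comp, eval_sub, eval_one, eval_X, abs_mul, hs,
        one_mul]
      rw [abs_of_pos (inv_pos.2 hM)]
      calc M⁻¹ * |P.eval (1 / 2 * (1 - x))| ≤ M⁻¹ * M :=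
            mul_le_mul_of_nonneg_left this (inv_pos.2 hM).le
        _ = 1 := inv_mul_cancel₀ hM.ne'
    have h := Chebyshev.eval_iterate_derivative_le_of_forall_abs_le_one (k := r) (le_refl (1 : ℝ))
      hdeg hbd
    rw [iterate_derivative_C_mul, eval_mul, eval_C] at h
    exact h.trans (cheb_deriv_bound d r hr).2
  have habs : |(derivative^[r] (P1.comp (1 - X))).eval 1| ≤ ((d : ℝ) ^ 2) ^ r := by
    rw [abs_le]
    have h1 := key 1 (by simp)
    have h2 := key (-1) (by simp)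
    constructor <;> linarith
  have hval : (derivative^[r] (P1.comp (1 - X))).eval 1 =
      (-1) ^ r * ((r.factorial : ℝ) * (M⁻¹ * (P.coeff r * (1 / 2) ^ r))) := by
    rw [iterate_derivative_comp_one_sub_X]
    simp only [eval_mul, eval_pow, eval_neg, eval_one, eval_comp, eval_sub, eval_X, sub_self]
    rw [← coeff_zero_eq_eval_zero, coeff_iterate_derivative, zero_add, Nat.descFactorial_self,
      hP1, coeff_C_mul, comp_C_mul_X_coeff, nsmul_eq_mul]
  rw [hval, abs_mul, abs_mul, abs_mul, abs_mul, abs_pow, abs_neg, abs_one, one_pow, one_mul,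
    abs_of_pos (inv_pos.2 hM), abs_of_pos (by positivity : (0 : ℝ) < (1 / 2) ^ r),
    abs_of_pos (by positivity : (0 : ℝ) < (r.factorial : ℝ))] at habs
  have hf : (1 : ℝ) ≤ r.factorial := by exact_mod_cast r.factorial_pos
  have h3 : M⁻¹ * (|P.coeff r| * (1 / 2) ^ r) ≤ ((d : ℝ) ^ 2) ^ r := by
    refine le_trans ?_ habs
    exact le_mul_of_one_le_left (by positivity) hf
  have h4 : |P.coeff r| = M * 2 ^ r * (M⁻¹ * (|P.coeff r| * (1 / 2) ^ r)) := by
    have : (2 : ℝ) ^ r * (1 / 2) ^ r = 1 := by rw [← mul_pow]; norm_num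
    field_simp
    rw [mul_assoc, this, mul_one]
  rw [h4, mul_pow (2 : ℝ), ← mul_assoc M]
  exact mul_le_mul_of_nonneg_left h3 (by positivity)

end Pool.Agent.MP_9e8696_an.H67
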