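import Mathlib
import Pool.Agent.MP_9e8696_an.H67.Hyper
import Pool.Agent.MP_9e8696_an.H67.Markov

/-!
Multilinear polynomials given by their coefficients: Taylor expansion, extraction of homogeneous
parts, Parseval identity and moment bounds.
-/

set_option linter.unusedSectionVars false

namespace Pool.Agent.MP_9e8696_an.H67

open Finset
open scoped BigOperators

variable {ι : Type*} [Fintype ι] [DecidableEq ι]

/-- The multilinear polynomial with coefficients `a`. -/
def F (a : Finset ι → ℝ) (w : ι → ℝ) : ℝ := ∑ S, a S * ∏ i ∈ S, w i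

/-- Coefficients of the iterated derivative in the directions `T`. -/
def sh (T : Finset ι) (a : Finset ι → ℝ) (R : Finset ι) : ℝ :=
  if Disjoint R T then a (R ∪ T) else 0

/-- Taylor coefficients at the point `w`. -/
def tc (a : Finset ι → ℝ) (w : ι → ℝ) (T : Finset ι) : ℝ := F (sh T a) w

/-- Sum of squares of the coefficients. -/
def nrm (a : Finset ι → ℝ) : ℝ := ∑ S, a S ^ 2

/-- Degree bound. -/
def DegLe (a : Finset ι → ℝ) (d : ℕ) : Prop := ∀ S, d < S.card → a S = 0

lemma nrm_nonneg (a : Finset ι → ℝ) : 0 ≤ nrm a := sum_nonneg fun _ _ => sq_nonneg _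

lemma DegLe.mono {a : Finset ι → ℝ} {d e : ℕ} (h : DegLe a d) (hde : d ≤ e) : DegLe a e :=
  fun S hS => h S (lt_of_le_of_lt hde hS)

lemma DegLe.sh {a : Finset ι → ℝ} {d : ℕ} (h : DegLe a d) (T : Finset ι) : DegLe (sh T a) d := by
  intro R hR
  unfold H67.sh
  split_ifs
  · exact h _ (lt_of_lt_of_le hR (card_le_card subset_union_left))
  · rfl

lemma DegLe.tc {a : Finset ι → ℝ} {d : ℕ} (h : DegLe a d) (w : ι → ℝ) : DegLe (tc a w) d := by
  intro T hT
  unfold H67.tc F
  refine sum_eq_zero fun R _ => ?_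
  have : H67.sh T a R = 0 := by
    unfold H67.sh
    split_ifs
    · exact h _ (lt_of_lt_of_le hT (card_le_card subset_union_right))
    · rfl
  rw [this, zero_mul]

/-- Reindexing: pairs `(T, R)` of disjoint sets against pairs `T ⊆ S`. -/
lemma sum_sh (T : Finset ι) (g : Finset ι → Finset ι → ℝ) :
    ∑ R, (if Disjoint R T then g (R ∪ T) R else 0) = ∑ S, if T ⊆ S then g S (S \ T) else 0 := by
  rw [← sum_filter, ← sum_filter]
  refine sum_bij' (fun R _ => R ∪ T) (fun S _ => S \ T) ?_ ?_ ?_ ?_ ?_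
  · intro R hR
    simp
  · intro S hS
    simp [sdiff_disjoint]
  · intro R hR
    simp only [mem_filter, mem_univ, true_and] at hR
    simp [union_sdiff_right, hR.sdiff_eq_left]
  · intro S hS
    simp only [mem_filter, mem_univ, true_and] at hS
    simp [hS]
  · intro R hR
    simp only [mem_filter, mem_univ, true_and] at hR
    simp [union_sdiff_right, hR.sdiff_eq_left]

lemma F_sh (T : Finset ι) (a : Finset ι → ℝ) (w : ι → ℝ) :
    F (sh T a) w = ∑ S, if T ⊆ S then a S * ∏ i ∈ S \ T, w i else 0 := by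
  rw [← sum_sh T (fun S R => a S * ∏ i ∈ R, w i)]
  unfold F sh
  refine sum_congr rfl fun R _ => ?_
  split_ifs <;> simp

lemma nrm_sh (T : Finset ι) (a : Finset ι → ℝ) :
    nrm (sh T a) = ∑ S, if T ⊆ S then a S ^ 2 else 0 := by
  rw [← sum_sh T (fun S _ => a S ^ 2)]
  unfold nrm sh
  refine sum_congr rfl fun R _ => ?_
  split_ifs <;> simp

/-- Taylor expansion. -/
lemma taylor (a : Finset ι → ℝ) (w v : ι → ℝ) : F a (fun i => w i + v i) = F (tc a w) v := by
  unfold tc
  simp only [F_sh]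
  unfold F
  simp only [sum_mul]
  rw [sum_comm]
  refine sum_congr rfl fun S _ => ?_
  have : ∏ i ∈ S, (w i + v i) = ∏ i ∈ S, (v i + w i) := prod_congr rfl fun i _ => add_comm _ _
  rw [this, prod_add, mul_sum]
  have h2 : S.powerset = univ.filter (fun T => T ⊆ S) := by
    ext T; simp
  rw [h2, sum_filter]
  refine sum_congr rfl fun T _ => ?_
  split_ifs
  · ring
  · simp

lemma sh_sh_singleton (j : ι) (T : Finset ι) (a : Finset ι → ℝ) :
    sh T (sh {j} a) = if j ∈ T then 0 else sh (insert j T) a := by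
  funext R
  by_cases hj : j ∈ T
  · simp only [hj, if_true, sh]
    have : ¬ Disjoint (R ∪ T) {j} := by simp [hj]
    simp [this]
  · simp only [hj, if_false, sh]
    by_cases h1 : Disjoint R T
    · by_cases h2 : j ∈ R
      · have : ¬ Disjoint (R ∪ T) {j} := by simp [h2]
        have h3 : ¬ Disjoint R (insert j T) := by simp [h2]
        simp [this, h3]
      · have : Disjoint (R ∪ T) {j} := by simp [h2, hj]
        have h3 : Disjoint R (insert j T) := by simp [h2, h1]
        simp only [h1, this, h3, if_true]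
        congr 1
        ext i; simp only [mem_union, mem_singleton, mem_insert]; tauto
    · have h3 : ¬ Disjoint R (insert j T) := fun h => h1 (h.mono_right (subset_insert _ _))
      simp [h1, h3]

lemma sh_singleton_sh (j : ι) (T : Finset ι) (a : Finset ι → ℝ) :
    sh {j} (sh T a) = if j ∈ T then 0 else sh (insert j T) a := by
  funext R
  by_cases hj : j ∈ T
  · simp only [hj, if_true, sh]
    simp [hj]
  · simp only [hj, if_false, sh]
    by_cases h2 : j ∈ R
    · have : ¬ Disjoint R {j} := by simp [h2]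
      have h3 : ¬ Disjoint R (insert j T) := by simp [h2]
      simp [this, h3]
    · have h4 : Disjoint R {j} := by simp [h2]
      by_cases h1 : Disjoint R T
      · have : Disjoint (R ∪ {j}) T := by simp [h1, hj]
        have h3 : Disjoint R (insert j T) := by simp [h2, h1]
        simp only [h4, this, h3, if_true]
        congr 1
        ext i; simp only [mem_union, mem_singleton, mem_insert]; tauto
      · have h3 : ¬ Disjoint R (insert j T) := fun h => h1 (h.mono_right (subset_insert _ _))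
        simp [h1, h3]

lemma F_zero (w : ι → ℝ) : F (0 : Finset ι → ℝ) w = 0 := by simp [F]

lemma tc_sh_singleton (j : ι) (a : Finset ι → ℝ) (w : ι → ℝ) :
    tc (sh {j} a) w = sh {j} (tc a w) := by
  funext T
  unfold tc
  rw [sh_sh_singleton]
  by_cases hj : j ∈ T
  · have : ¬ Disjoint T {j} := by simp [hj]
    simp [hj, sh, this, F_zero]
  · have : Disjoint T {j} := by simp [hj]
    simp only [hj, if_false]
    conv_rhs => unfold sh
    simp only [this, if_true]
    congr 2
    ext i; simp only [mem_union, mem_singleton, mem_insert]; tauto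

/-- Extraction of a homogeneous part. -/
lemma extract (c : Finset ι → ℝ) (d : ℕ) (hc : DegLe c d) (v : ι → ℝ) (M : ℝ) (hM : 0 < M)
    (hb : ∀ u ∈ Set.Icc (0 : ℝ) 1, |F c (fun i => u * v i)| ≤ M) (r : ℕ) :
    |∑ S, if S.card = r then c S * ∏ i ∈ S, v i else 0| ≤ M * (2 * (d : ℝ) ^ 2) ^ r := by
  set P : Polynomial ℝ := ∑ S : Finset ι, Polynomial.monomial S.card (c S * ∏ i ∈ S, v i) with hP
  have hdeg : P.natDegree ≤ d := by
    rw [Polynomial.natDegree_le_iff_coeff_eq_zero]
    intro N hN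
    rw [hP, Polynomial.finsetSum_coeff]
    refine sum_eq_zero fun S _ => ?_
    rw [Polynomial.coeff_monomial]
    split_ifs with h
    · rw [hc S (h ▸ hN), zero_mul]
    · rfl
  have hev : ∀ u, P.eval u = F c (fun i => u * v i) := by
    intro u
    rw [hP, Polynomial.eval_finsetSum]
    unfold F
    refine sum_congr rfl fun S _ => ?_
    rw [Polynomial.eval_monomial, prod_mul_distrib, prod_const]
    ring
  have h := coeff_bound P d hdeg M hM (fun u hu => by rw [hev]; exact hb u hu) r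
  rw [hP, Polynomial.finsetSum_coeff] at h
  simpa only [Polynomial.coeff_monomial] using h

lemma F_update_affine (c : Finset ι → ℝ) (w : ι → ℝ) (i : ι) (l s t : ℝ) :
    F c (Function.update w i (l * s + (1 - l) * t)) =
      l * F c (Function.update w i s) + (1 - l) * F c (Function.update w i t) := by
  unfold F
  rw [mul_sum, mul_sum, ← sum_add_distrib]
  refine sum_congr rfl fun S _ => ?_
  by_cases hi : i ∈ S
  · simp only [prod_update_of_mem hi]; ring
  · simp only [prod_update_of_notMem hi]; ring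

/-- A multilinear polynomial bounded on the vertices of a cube is bounded on the cube. -/
lemma bound_of_vertices (c : Finset ι → ℝ) (lo hi M : ℝ) (hlh : lo < hi)
    (hb : ∀ w : ι → ℝ, (∀ i, w i = lo ∨ w i = hi) → |F c w| ≤ M) (w : ι → ℝ)
    (hw : ∀ i, lo ≤ w i ∧ w i ≤ hi) : |F c w| ≤ M := by
  have key : ∀ s : Finset ι, ∀ w : ι → ℝ, (∀ i, lo ≤ w i ∧ w i ≤ hi) →
      (∀ i, i ∉ s → (w i = lo ∨ w i = hi)) → |F c w| ≤ M := by
    intro s
    induction s using Finset.induction_on with
    | empty => intro w _ h2; exact hb w fun i => h2 i (notMem_empty i)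
    | insert j s hj ih =>
      intro w h1 h2
      set l := (hi - w j) / (hi - lo) with hl
      have hpos : 0 < hi - lo := by linarith
      have hl0 : 0 ≤ l := div_nonneg (by linarith [(h1 j).2]) hpos.le
      have hl1 : l ≤ 1 := (div_le_one hpos).2 (by linarith [(h1 j).1])
      have hw : w = Function.update w j (l * lo + (1 - l) * hi) := by
        have : l * lo + (1 - l) * hi = w j := by
          rw [hl]; field_simp; ring
        rw [this, Function.update_eq_self]
      have hup : ∀ t, (t = lo ∨ t = hi) → |F c (Function.update w j t)| ≤ M := by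
        intro t ht
        apply ih
        · intro i
          by_cases hij : i = j
          · subst hij
            rcases ht with rfl | rfl <;> simp [hlh.le]
          · simp [hij, h1 i]
        · intro i hi'
          by_cases hij : i = j
          · subst hij; simpa using ht
          · simp only [Function.update_of_ne hij]
            exact h2 i (by simp [hij, hi'])
      rw [hw, F_update_affine]
      have e1 := hup lo (Or.inl rfl)
      have e2 := hup hi (Or.inr rfl)
      calc |l * F c (Function.update w j lo) + (1 - l) * F c (Function.update w j hi)|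
          ≤ |l * F c (Function.update w j lo)| + |(1 - l) * F c (Function.update w j hi)| :=
            abs_add_le _ _
        _ = l * |F c (Function.update w j lo)| + (1 - l) * |F c (Function.update w j hi)| := by
            rw [abs_mul, abs_mul, abs_of_nonneg hl0, abs_of_nonneg (by linarith : 0 ≤ 1 - l)]
        _ ≤ l * M + (1 - l) * M :=
            add_le_add (mul_le_mul_of_nonneg_left e1 hl0)
              (mul_le_mul_of_nonneg_left e2 (by linarith))
        _ = M := by ring
  exact key univ w hw fun i hi' => absurd (mem_univ i) hi'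

lemma chi_mul (S T : Finset ι) (x : ι → Bool) : chi S x * chi T x = chi (symmDiff S T) x := by
  unfold chi
  have h1 : S = (S \ T) ∪ (S ∩ T) := (sdiff_union_inter S T).symm
  have h2 : T = (T \ S) ∪ (S ∩ T) := by rw [inter_comm]; exact (sdiff_union_inter T S).symm
  have e1 : ∏ i ∈ S, sg (x i) = (∏ i ∈ S \ T, sg (x i)) * ∏ i ∈ S ∩ T, sg (x i) := by
    rw [← prod_union (disjoint_sdiff_inter S T), ← h1]
  have e2 : ∏ i ∈ T, sg (x i) = (∏ i ∈ T \ S, sg (x i)) * ∏ i ∈ S ∩ T, sg (x i) := by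
    rw [inter_comm, ← prod_union (disjoint_sdiff_inter T S), inter_comm, ← h2]
  have e3 : (∏ i ∈ S ∩ T, sg (x i)) * ∏ i ∈ S ∩ T, sg (x i) = 1 := by
    rw [← prod_mul_distrib]; simp [sg_sq]
  rw [e1, e2, symmDiff_def, sup_eq_union, prod_union (disjoint_sdiff_sdiff)]
  linear_combination (∏ i ∈ S \ T, sg (x i)) * (∏ i ∈ T \ S, sg (x i)) * e3

/-- Flipping a coordinate as a permutation of the cube. -/
def flipE (i : ι) : (ι → Bool) ≃ (ι → Bool) := (flipAt_invol i).toPerm

lemma expect_flip (i : ι) (g : (ι → Bool) → ℝ) : 𝔼 x, g (flipAt i x) = 𝔼 x, g x :=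
  Fintype.expect_equiv (flipE i) _ _ fun _ => rfl

lemma chi_flipAt_mem (S : Finset ι) (i : ι) (hi : i ∈ S) (x : ι → Bool) :
    chi S (flipAt i x) = - chi S x := by
  unfold chi
  rw [← mul_prod_erase S _ hi, ← mul_prod_erase S (fun j => sg (x j)) hi]
  have := chi_flipAt (S.erase i) i (notMem_erase i S) x
  unfold chi at this
  rw [this]
  simp [flipAt, sg_not]

lemma expect_chi (S : Finset ι) : 𝔼 x, chi S x = if S = ∅ then 1 else 0 := by
  split_ifs with h
  · subst h; simp [chi]
  · obtain ⟨i, hi⟩ := nonempty_iff_ne_empty.2 h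
    have h1 := expect_flip i (chi S)
    simp only [chi_flipAt_mem S i hi, expect_neg_distrib] at h1
    linarith

lemma expect_chi_mul (S T : Finset ι) : 𝔼 x, chi S x * chi T x = if S = T then 1 else 0 := by
  simp only [chi_mul, expect_chi]
  have : symmDiff S T = ∅ ↔ S = T := by rw [← bot_eq_empty, symmDiff_eq_bot]
  simp only [this]

/-- Parseval identity. -/
lemma parseval (c : Finset ι → ℝ) : 𝔼 x, (∑ S, c S * chi S x) ^ 2 = nrm c := by
  have : ∀ x : ι → Bool, (∑ S, c S * chi S x) ^ 2 =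
      ∑ S, ∑ T, c S * c T * (chi S x * chi T x) := by
    intro x
    rw [sq, sum_mul_sum]
    exact sum_congr rfl fun S _ => sum_congr rfl fun T _ => by ring
  simp only [this, expect_sum_comm, ← mul_expect, expect_chi_mul]
  unfold nrm
  refine sum_congr rfl fun S _ => ?_
  simp [sq]

/-- Fourth moment bound. -/
lemma fourth (c : Finset ι → ℝ) (d : ℕ) (hc : DegLe c d) :
    𝔼 x, (∑ S, c S * chi S x) ^ 4 ≤ 64 ^ d * nrm c ^ 2 := by
  have h := hyper 2 (by norm_num) c
  have hcard : (0 : ℝ) < Fintype.card (ι → Bool) := by exact_mod_cast Fintype.card_pos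
  rw [Fintype.expect_eq_sum_div_card, div_le_iff₀ hcard, mul_comm]
  refine h.trans (mul_le_mul_of_nonneg_left ?_ hcard.le)
  have h2 : ∑ S, (4 * ((2 : ℕ) : ℝ)) ^ S.card * c S ^ 2 ≤ 8 ^ d * nrm c := by
    unfold nrm
    rw [mul_sum]
    refine sum_le_sum fun S _ => ?_
    by_cases hS : d < S.card
    · simp [hc S hS]
    · refine mul_le_mul_of_nonneg_right ?_ (sq_nonneg _)
      have : (4 * ((2 : ℕ) : ℝ)) = 8 := by norm_num
      rw [this]
      exact pow_le_pow_right₀ (by norm_num) (not_lt.1 hS)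
  have h0 : 0 ≤ ∑ S, (4 * ((2 : ℕ) : ℝ)) ^ S.card * c S ^ 2 :=
    sum_nonneg fun S _ => by positivity
  calc (∑ S, (4 * ((2 : ℕ) : ℝ)) ^ S.card * c S ^ 2) ^ 2 ≤ (8 ^ d * nrm c) ^ 2 :=
        pow_le_pow_left₀ h0 h2 2
    _ = 64 ^ d * nrm c ^ 2 := by
        rw [mul_pow, ← pow_mul, mul_comm d 2, pow_mul]; norm_num

/-- Comparison of the second and first moments. -/
lemma sqrt_nrm_le (c : Finset ι → ℝ) (d : ℕ) (hc : DegLe c d) :
    Real.sqrt (nrm c) ≤ 8 ^ d * 𝔼 x, |∑ S, c S * chi S x| := by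
  set g : (ι → Bool) → ℝ := fun x => |∑ S, c S * chi S x| with hg
  have hg0 : ∀ x, 0 ≤ g x := fun x => abs_nonneg _
  have h2 : 𝔼 x, g x ^ 2 = nrm c := by simp only [hg, sq_abs]; exact parseval c
  have h4 : 𝔼 x, g x ^ 4 ≤ 64 ^ d * nrm c ^ 2 := by
    have : ∀ x, g x ^ 4 = (∑ S, c S * chi S x) ^ 4 := fun x => by
      rw [hg]; exact Even.pow_abs (by norm_num) _
    simp only [this]; exact fourth c d hc
  have cs1 := expect_mul_sq_le_sq_mul_sq univ (fun x => Real.sqrt (g x))
    (fun x => Real.sqrt (g x) * g x)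
  have cs2 := expect_mul_sq_le_sq_mul_sq univ (fun x => g x) (fun x => g x ^ 2)
  have e1 : ∀ x, Real.sqrt (g x) * (Real.sqrt (g x) * g x) = g x ^ 2 := fun x => by
    rw [← mul_assoc, Real.mul_self_sqrt (hg0 x), sq]
  have e2 : ∀ x, Real.sqrt (g x) ^ 2 = g x := fun x => Real.sq_sqrt (hg0 x)
  have e3 : ∀ x, (Real.sqrt (g x) * g x) ^ 2 = g x * g x ^ 2 := fun x => by rw [mul_pow, e2]
  have e4 : ∀ x, (g x ^ 2) ^ 2 = g x ^ 4 := fun x => by ring
  simp only [e1, e2, e3, h2] at cs1
  simp only [e4, h2] at cs2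
  set N := nrm c with hN
  set A := 𝔼 x, g x with hA
  set B := 𝔼 x, g x * g x ^ 2 with hB
  have hN0 : 0 ≤ N := nrm_nonneg c
  have hA0 : 0 ≤ A := expect_nonneg fun x _ => hg0 x
  have hB0 : 0 ≤ B := expect_nonneg fun x _ => mul_nonneg (hg0 x) (sq_nonneg _)
  rw [Real.sqrt_le_iff]
  refine ⟨by positivity, ?_⟩
  rcases hN0.eq_or_lt with h0 | hpos
  · rw [← h0]; positivity
  have h5 : B ^ 2 ≤ N * (64 ^ d * N ^ 2) := cs2.trans (mul_le_mul_of_nonneg_left h4 hN0)
  have h6 : (N ^ 2) ^ 2 ≤ (A * B) ^ 2 := pow_le_pow_left₀ (sq_nonneg _) cs1 2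
  have h7 : N * N ^ 3 ≤ (A ^ 2 * 64 ^ d) * N ^ 3 := by
    calc N * N ^ 3 = (N ^ 2) ^ 2 := by ring
      _ ≤ A ^ 2 * B ^ 2 := by rw [← mul_pow]; exact h6
      _ ≤ A ^ 2 * (N * (64 ^ d * N ^ 2)) := mul_le_mul_of_nonneg_left h5 (sq_nonneg _)
      _ = (A ^ 2 * 64 ^ d) * N ^ 3 := by ring
  have h8 : N ≤ A ^ 2 * 64 ^ d := le_of_mul_le_mul_right h7 (by positivity)
  calc N ≤ A ^ 2 * 64 ^ d := h8
    _ = (8 ^ d * A) ^ 2 := by
        rw [mul_pow, ← pow_mul, mul_comm d 2, pow_mul]; norm_num; ring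

lemma abs_sg (b : Bool) : |sg b| = 1 := by cases b <;> simp [sg]

lemma F_smul_sg (e : Finset ι → ℝ) (s : ℝ) (x : ι → Bool) :
    F e (fun i => s * sg (x i)) = ∑ S, (s ^ S.card * e S) * chi S x := by
  unfold F chi
  refine sum_congr rfl fun S _ => ?_
  rw [prod_mul_distrib, prod_const]; ring

lemma expect_F_sq (e : Finset ι → ℝ) (s : ℝ) :
    𝔼 x : ι → Bool, F e (fun i => s * sg (x i)) ^ 2 = ∑ S, (s ^ S.card) ^ 2 * e S ^ 2 := by
  simp only [F_smul_sg, parseval, nrm, mul_pow]

lemma expect_F_sq_le (e : Finset ι → ℝ) (s : ℝ) (hs : |s| ≤ 1) :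
    𝔼 x : ι → Bool, F e (fun i => s * sg (x i)) ^ 2 ≤ nrm e := by
  rw [expect_F_sq]
  refine sum_le_sum fun S _ => mul_le_of_le_one_left (sq_nonneg _) ?_
  rw [sq_le_one_iff_abs_le_one, abs_pow]
  exact pow_le_one₀ (abs_nonneg _) hs

lemma expect_F_sq_ge (e : Finset ι → ℝ) (d : ℕ) (hd : 1 ≤ d) (he : DegLe e d) :
    nrm e / 4 ≤ 𝔼 x : ι → Bool, F e (fun i => (1 - 1 / (2 * (d : ℝ))) * sg (x i)) ^ 2 := by
  rw [expect_F_sq, nrm, sum_div]
  refine sum_le_sum fun S _ => ?_
  by_cases hS : d < S.card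
  · simp [he S hS]
  have hd' : (1 : ℝ) ≤ d := by exact_mod_cast hd
  have h0 : 0 ≤ 1 / (2 * (d : ℝ)) := by positivity
  have h1 : 1 / (2 * (d : ℝ)) ≤ 1 := by
    rw [div_le_one (by positivity)]; linarith
  have h2 : (1 - 1 / (2 * (d : ℝ))) ^ d ≤ (1 - 1 / (2 * (d : ℝ))) ^ S.card :=
    pow_le_pow_of_le_one (by linarith) (by linarith) (not_lt.1 hS)
  have h3 := one_add_mul_le_pow (a := - (1 / (2 * (d : ℝ)))) (by linarith) d
  have h4 : 1 + (d : ℝ) * -(1 / (2 * (d : ℝ))) = 1 / 2 := by field_simp; norm_num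
  rw [h4, ← sub_eq_add_neg] at h3
  have h5 : (1 / 2 : ℝ) ^ 2 ≤ ((1 - 1 / (2 * (d : ℝ))) ^ S.card) ^ 2 :=
    pow_le_pow_left₀ (by norm_num) (h3.trans h2) 2
  nlinarith [sq_nonneg (e S)]

lemma expect_F_four (e : Finset ι → ℝ) (d : ℕ) (he : DegLe e d) (s : ℝ) (hs : |s| ≤ 1) :
    𝔼 x : ι → Bool, F e (fun i => s * sg (x i)) ^ 4 ≤ 64 ^ d * nrm e ^ 2 := by
  simp only [F_smul_sg]
  refine (fourth (fun S => s ^ S.card * e S) d fun S hS => by simp [he S hS]).trans ?_
  refine mul_le_mul_of_nonneg_left (pow_le_pow_left₀ (nrm_nonneg _) ?_ 2) (by positivity)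
  refine sum_le_sum fun S _ => ?_
  rw [mul_pow]
  refine mul_le_of_le_one_left (sq_nonneg _) ?_
  rw [sq_le_one_iff_abs_le_one, abs_pow]
  exact pow_le_one₀ (abs_nonneg _) hs

end Pool.Agent.MP_9e8696_an.H67
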