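import Mathlib
import Pool.Agent.MP_9e8696_an.H67.Basic

/-!
Pointwise bounds for derivatives of bounded multilinear polynomials: the sum of first derivatives,
a Littlewood type inequality for Taylor coefficients, and heavy sets.
-/

set_option linter.unusedSectionVars false

namespace Pool.Agent.MP_9e8696_an.H67

open Finset
open scoped BigOperators

variable {ι : Type*} [Fintype ι] [DecidableEq ι]

/-- Bounded by one on the solid cube. -/
def Bdd (a : Finset ι → ℝ) : Prop := ∀ w : ι → ℝ, (∀ i, |w i| ≤ 1) → |F a w| ≤ 1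

/-- Homogeneous part. -/
def lev (r : ℕ) (c : Finset ι → ℝ) (S : Finset ι) : ℝ := if S.card = r then c S else 0

/-- Influence in coefficient form. -/
def inf (e : Finset ι → ℝ) (j : ι) : ℝ := nrm (sh {j} e)

lemma inf_nonneg (e : Finset ι → ℝ) (j : ι) : 0 ≤ inf e j := nrm_nonneg _

lemma inf_eq (e : Finset ι → ℝ) (j : ι) : inf e j = ∑ S, if j ∈ S then e S ^ 2 else 0 := by
  simp only [inf, nrm_sh, singleton_subset_iff]

lemma inf_le_nrm (e : Finset ι → ℝ) (j : ι) : inf e j ≤ nrm e := by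
  rw [inf_eq]
  refine sum_le_sum fun S _ => ?_
  split_ifs
  · exact le_rfl
  · exact sq_nonneg _

lemma sum_inf (e : Finset ι → ℝ) : ∑ j, inf e j = ∑ S, (S.card : ℝ) * e S ^ 2 := by
  simp only [inf_eq]
  rw [sum_comm]
  refine sum_congr rfl fun S _ => ?_
  rw [← sum_filter]
  simp

lemma sum_inf_le (e : Finset ι → ℝ) (d : ℕ) (he : DegLe e d) : ∑ j, inf e j ≤ d * nrm e := by
  rw [sum_inf, nrm, mul_sum]
  refine sum_le_sum fun S _ => ?_
  by_cases hS : d < S.card
  · simp [he S hS]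
  · exact mul_le_mul_of_nonneg_right (by exact_mod_cast not_lt.1 hS) (sq_nonneg _)

lemma out_le (e : Finset ι → ℝ) (H : Finset ι) :
    ∑ S, (if S ⊆ H then 0 else e S ^ 2) ≤ ∑ j, if j ∈ H then 0 else inf e j := by
  have : ∀ j, (if j ∈ H then 0 else inf e j) =
      ∑ S, if j ∈ S ∧ j ∉ H then e S ^ 2 else 0 := by
    intro j
    by_cases hj : j ∈ H
    · simp [hj]
    · simp [hj, inf_eq]
  simp only [this]
  rw [sum_comm]
  refine sum_le_sum fun S _ => ?_
  split_ifs with h
  · exact sum_nonneg fun j _ => by split_ifs <;> positivity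
  · obtain ⟨j, hj1, hj2⟩ := not_subset.1 h
    have := single_le_sum (f := fun j => if j ∈ S ∧ j ∉ H then e S ^ 2 else 0)
      (fun j _ => by split_ifs <;> positivity) (mem_univ j)
    simpa [hj1, hj2] using this

lemma sum_card_one (g : Finset ι → ℝ) :
    ∑ S, (if S.card = 1 then g S else 0) = ∑ j, g {j} := by
  rw [← sum_filter]
  symm
  refine sum_bij (fun j _ => {j}) ?_ ?_ ?_ ?_
  · intro j _; simp
  · intro j _ k _ h; exact singleton_injective h
  · intro S hS
    simp only [mem_filter, mem_univ, true_and] at hS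
    obtain ⟨j, rfl⟩ := card_eq_one.1 hS
    exact ⟨j, mem_univ _, rfl⟩
  · intro j _; rfl

lemma F_sum (σ : ι → ℝ) (e : ι → Finset ι → ℝ) (w : ι → ℝ) :
    F (fun R => ∑ j, σ j * e j R) w = ∑ j, σ j * F (e j) w := by
  unfold F
  simp only [sum_mul, mul_sum]
  rw [sum_comm]
  exact sum_congr rfl fun _ _ => sum_congr rfl fun _ _ => by ring

lemma tc_sum (σ : ι → ℝ) (e : ι → Finset ι → ℝ) (w : ι → ℝ) (T : Finset ι) :
    tc (fun R => ∑ j, σ j * e j R) w T = ∑ j, σ j * tc (e j) w T := by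
  unfold tc
  rw [← F_sum]
  congr 1
  funext R
  unfold sh
  split_ifs <;> simp

/-- Pointwise bound on the sum of the first derivatives inside the cube. -/
lemma l1_bound {a : Finset ι → ℝ} {d : ℕ} (hd : 1 ≤ d) (ha : DegLe a d) (hb : Bdd a)
    (w : ι → ℝ) (hw : ∀ i, |w i| ≤ 1 - 1 / (4 * (d : ℝ))) (σ : ι → ℝ) (hσ : ∀ j, |σ j| ≤ 1) :
    |∑ j, σ j * F (sh {j} a) w| ≤ 8 * (d : ℝ) ^ 3 := by
  have hd' : (1 : ℝ) ≤ d := by exact_mod_cast hd
  set t : ℝ := 1 / (4 * (d : ℝ)) with ht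
  have ht0 : 0 < t := by positivity
  have h := extract (tc a w) d (ha.tc w) (fun i => t * σ i) 1 one_pos (by
    intro u hu
    rw [← taylor]
    apply hb
    intro i
    have h1 : |u * (t * σ i)| ≤ t := by
      rw [abs_mul, abs_mul, abs_of_nonneg hu.1, abs_of_pos ht0]
      calc u * (t * |σ i|) ≤ 1 * (t * 1) := by
            apply mul_le_mul hu.2 (mul_le_mul_of_nonneg_left (hσ i) ht0.le) (by positivity)
              zero_le_one
        _ = t := by ring
    calc |w i + u * (t * σ i)| ≤ |w i| + |u * (t * σ i)| := abs_add_le _ _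
      _ ≤ 1 := by linarith [hw i]) 1
  rw [sum_card_one (fun S => tc a w S * ∏ i ∈ S, (t * σ i))] at h
  simp only [prod_singleton, pow_one, one_mul] at h
  have h2 : ∑ j, tc a w {j} * (t * σ j) = t * ∑ j, σ j * F (sh {j} a) w := by
    rw [mul_sum]; exact sum_congr rfl fun j _ => by unfold tc; ring
  rw [h2, abs_mul, abs_of_pos ht0] at h
  have h3 : 8 * (d : ℝ) ^ 3 * t = 2 * (d : ℝ) ^ 2 := by rw [ht]; field_simp; norm_num
  refine le_of_mul_le_mul_left ?_ ht0
  linarith

lemma lev_sh (r : ℕ) (j : ι) (c : Finset ι → ℝ) : lev r (sh {j} c) = sh {j} (lev (r + 1) c) := by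
  funext R
  unfold lev sh
  by_cases h : Disjoint R {j}
  · simp only [h, if_true, card_union_of_disjoint h, card_singleton, add_left_inj]
  · simp [h]

lemma degLe_lev (r : ℕ) (c : Finset ι → ℝ) : DegLe (lev r c) r := by
  intro S hS
  unfold lev
  rw [if_neg hS.ne']

/-- Littlewood type inequality for the Taylor coefficients of a fixed order. -/
lemma littlewood {a : Finset ι → ℝ} {d : ℕ} (hd : 1 ≤ d) (ha : DegLe a d) (hb : Bdd a)
    (w : ι → ℝ) (hw : ∀ i, |w i| ≤ 1 - 1 / (2 * (d : ℝ))) (r : ℕ) :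
    ∑ j, Real.sqrt (inf (lev (r + 1) (tc a w)) j) ≤ (64 * (d : ℝ) ^ 3) ^ (r + 1) := by
  have hd' : (1 : ℝ) ≤ d := by exact_mod_cast hd
  set t : ℝ := 1 / (4 * (d : ℝ)) with ht
  have ht0 : 0 < t := by positivity
  have ht2 : 1 / (2 * (d : ℝ)) = 2 * t := by rw [ht]; field_simp; norm_num
  set g : ι → (ι → Bool) → ℝ := fun j y => ∑ S, lev r (sh {j} (tc a w)) S * chi S y with hg
  have h1 : ∀ j, Real.sqrt (inf (lev (r + 1) (tc a w)) j) ≤ 8 ^ r * 𝔼 y, |g j y| := by
    intro j
    unfold inf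
    rw [← lev_sh]
    exact sqrt_nrm_le _ r (degLe_lev r _)
  have h2 : ∀ y, ∑ j, |g j y| ≤ (8 * (d : ℝ) ^ 3) ^ (r + 1) := by
    intro y
    set σ : ι → ℝ := fun j => if 0 ≤ g j y then 1 else -1 with hσ
    have hσ1 : ∀ j, |σ j| ≤ 1 := by
      intro j; simp only [hσ]; split_ifs <;> simp
    have hσ2 : ∀ j, |g j y| = σ j * g j y := by
      intro j; simp only [hσ]
      split_ifs with h
      · rw [abs_of_nonneg h, one_mul]
      · rw [abs_of_neg (not_le.1 h)]; ring
    set e : Finset ι → ℝ := fun R => ∑ j, σ j * sh {j} a R with he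
    have hed : DegLe e d := by
      intro S hS
      exact sum_eq_zero fun j _ => by rw [ha.sh {j} S hS, mul_zero]
    have h := extract (tc e w) d (hed.tc w) (fun i => t * sg (y i)) (8 * (d : ℝ) ^ 3)
      (by positivity) (by
        intro u hu
        rw [← taylor, he, F_sum]
        apply l1_bound hd ha hb _ _ σ hσ1
        intro i
        have h1 : |u * (t * sg (y i))| ≤ t := by
          rw [abs_mul, abs_mul, abs_of_nonneg hu.1, abs_of_pos ht0, abs_sg, mul_one]
          exact mul_le_of_le_one_left ht0.le hu.2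
        calc |w i + u * (t * sg (y i))| ≤ |w i| + |u * (t * sg (y i))| := abs_add_le _ _
          _ ≤ 1 - t := by linarith [hw i]) r
    have h3 : (∑ S, if S.card = r then tc e w S * ∏ i ∈ S, (t * sg (y i)) else 0) =
        t ^ r * ∑ j, σ j * g j y := by
      simp only [hg, mul_sum]
      rw [sum_comm]
      refine sum_congr rfl fun S _ => ?_
      unfold lev
      split_ifs with hS
      · rw [he, tc_sum, sum_mul]
        refine sum_congr rfl fun j _ => ?_
        rw [tc_sh_singleton, prod_mul_distrib, prod_const, hS]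
        unfold chi; ring
      · simp
    rw [h3, abs_mul, abs_of_pos (pow_pos ht0 r)] at h
    have h4 : (8 * (d : ℝ) ^ 3) * (2 * (d : ℝ) ^ 2) ^ r = t ^ r * (8 * (d : ℝ) ^ 3) ^ (r + 1) := by
      have h5 : t * (8 * (d : ℝ) ^ 3) = 2 * (d : ℝ) ^ 2 := by rw [ht]; field_simp; norm_num
      rw [← h5, mul_pow t]; ring
    rw [h4] at h
    simp only [hσ2]
    exact (le_abs_self _).trans (le_of_mul_le_mul_left h (pow_pos ht0 r))
  calc ∑ j, Real.sqrt (inf (lev (r + 1) (tc a w)) j) ≤ ∑ j, 8 ^ r * 𝔼 y, |g j y| :=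
        sum_le_sum fun j _ => h1 j
    _ = 8 ^ r * 𝔼 y, ∑ j, |g j y| := by rw [← mul_sum, expect_sum_comm]
    _ ≤ 8 ^ r * (8 * (d : ℝ) ^ 3) ^ (r + 1) := by
        refine mul_le_mul_of_nonneg_left ?_ (by positivity)
        exact expect_le univ_nonempty fun y _ => h2 y
    _ ≤ 8 ^ (r + 1) * (8 * (d : ℝ) ^ 3) ^ (r + 1) := by
        refine mul_le_mul_of_nonneg_right ?_ (by positivity)
        exact pow_le_pow_right₀ (by norm_num) (Nat.le_succ r)
    _ = (64 * (d : ℝ) ^ 3) ^ (r + 1) := by rw [← mul_pow]; congr 1; ring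

/-- The set of coordinates of large influence. -/
noncomputable def heavy (e : Finset ι → ℝ) (θ : ℝ) : Finset ι := univ.filter fun j => θ < inf e j

lemma heavy_card (e : Finset ι → ℝ) (C θ : ℝ) (hθ : 0 < θ)
    (h : ∑ j, Real.sqrt (inf e j) ≤ C) : ((heavy e (θ ^ 2)).card : ℝ) ≤ C / θ := by
  rw [le_div_iff₀ hθ]
  refine le_trans ?_ h
  calc ((heavy e (θ ^ 2)).card : ℝ) * θ = ∑ _j ∈ heavy e (θ ^ 2), θ := by simp
    _ ≤ ∑ j ∈ heavy e (θ ^ 2), Real.sqrt (inf e j) := by
        refine sum_le_sum fun j hj => ?_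
        exact Real.le_sqrt_of_sq_le (mem_filter.1 hj).2.le
    _ ≤ ∑ j, Real.sqrt (inf e j) :=
        sum_le_sum_of_subset_of_nonneg (subset_univ _) fun j _ _ => Real.sqrt_nonneg _

lemma heavy_out (e : Finset ι → ℝ) (C θ : ℝ) (hθ : 0 < θ)
    (h : ∑ j, Real.sqrt (inf e j) ≤ C) :
    ∑ S, (if S ⊆ heavy e (θ ^ 2) then 0 else e S ^ 2) ≤ C * θ := by
  refine (out_le e _).trans ?_
  calc (∑ j, if j ∈ heavy e (θ ^ 2) then 0 else inf e j) ≤ ∑ j, Real.sqrt (inf e j) * θ := by
        refine sum_le_sum fun j _ => ?_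
        split_ifs with hj
        · positivity
        · have h1 : inf e j ≤ θ ^ 2 := by simpa [heavy] using hj
          have h2 : Real.sqrt (inf e j) ≤ θ := Real.sqrt_le_iff.2 ⟨hθ.le, h1⟩
          calc inf e j = Real.sqrt (inf e j) * Real.sqrt (inf e j) :=
                (Real.mul_self_sqrt (inf_nonneg e j)).symm
            _ ≤ _ := mul_le_mul_of_nonneg_left h2 (Real.sqrt_nonneg _)
    _ ≤ C * θ := by rw [← sum_mul]; exact mul_le_mul_of_nonneg_right h hθ.le

end Pool.Agent.MP_9e8696_an.H67
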