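import Mathlib
import Pool.Agent.MP_9e8696_an.H67.Little

/-!
The anchoring process: either it stops at a level where the derivatives are close to juntas, or
it reaches the top level.
-/

set_option linter.unusedSectionVars false

namespace Pool.Agent.MP_9e8696_an.H67

open Finset
open scoped BigOperators

variable {ι : Type*} [Fintype ι] [DecidableEq ι]

/-- Variance in coefficient form. -/
def var (a : Finset ι → ℝ) : ℝ := ∑ S, if S = ∅ then 0 else a S ^ 2

/-- Squared norm of an iterated derivative. -/
def W (a : Finset ι → ℝ) (T : Finset ι) : ℝ := nrm (sh T a)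

/-- The coordinates that are relatively influential for an iterated derivative. -/
noncomputable def NN (a : Finset ι → ℝ) (η : ℝ) (T : Finset ι) : Finset ι :=
  heavy (sh T a) (η * W a T)

/-- Weight of an iterated derivative outside its influential coordinates. -/
noncomputable def outW (a : Finset ι → ℝ) (η : ℝ) (T : Finset ι) : ℝ :=
  ∑ R, if R ⊆ NN a η T then 0 else sh T a R ^ 2

/-- The admissible sets of size `r + 1`. -/
noncomputable def AA (a : Finset ι → ℝ) (η : ℝ) (r : ℕ) : Finset (Finset ι) :=
  univ.filter fun T => T.card = r + 1 ∧ W a T ≤ η ^ r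

lemma W_nonneg (a : Finset ι → ℝ) (T : Finset ι) : 0 ≤ W a T := nrm_nonneg _

lemma inf_sh (a : Finset ι → ℝ) (T : Finset ι) (j : ι) :
    inf (sh T a) j = if j ∈ T then 0 else W a (insert j T) := by
  unfold inf W
  rw [sh_singleton_sh]
  split_ifs
  · simp [nrm]
  · rfl

lemma nrm_le_one {a : Finset ι → ℝ} (hb : Bdd a) : nrm a ≤ 1 := by
  rw [← parseval]
  refine expect_le univ_nonempty fun x _ => ?_
  have := hb (fun i => sg (x i)) fun i => (abs_sg _).le
  rw [sq_le_one_iff_abs_le_one]
  exact this

lemma var_le_nrm (a : Finset ι → ℝ) : var a ≤ nrm a := by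
  refine sum_le_sum fun S _ => ?_
  split_ifs
  · exact sq_nonneg _
  · exact le_rfl

lemma NN_card {a : Finset ι → ℝ} {d : ℕ} (ha : DegLe a d) (η : ℝ) (hη : 0 < η) (T : Finset ι) :
    ((NN a η T).card : ℝ) ≤ d / η := by
  rcases (W_nonneg a T).eq_or_lt with h0 | hpos
  · have : NN a η T = ∅ := by
      unfold NN heavy
      rw [filter_eq_empty_iff]
      intro j _
      have := inf_le_nrm (sh T a) j
      unfold W at h0 ⊢
      rw [← h0] at this ⊢
      simpa using this
    rw [this]; simp only [card_empty, Nat.cast_zero]; positivity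
  · rw [le_div_iff₀ hη]
    refine le_of_mul_le_mul_right ?_ hpos
    calc ((NN a η T).card : ℝ) * η * W a T = ∑ _j ∈ NN a η T, η * W a T := by
          simp [mul_assoc]
      _ ≤ ∑ j ∈ NN a η T, inf (sh T a) j := sum_le_sum fun j hj => (mem_filter.1 hj).2.le
      _ ≤ ∑ j, inf (sh T a) j :=
          sum_le_sum_of_subset_of_nonneg (subset_univ _) fun j _ _ => inf_nonneg _ _
      _ ≤ d * W a T := sum_inf_le _ d (ha.sh T)

lemma anchor_base {a : Finset ι → ℝ} (hb : Bdd a) (η : ℝ) : var a ≤ ∑ T ∈ AA a η 0, W a T := by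
  have h1 : ∑ T ∈ AA a η 0, W a T = ∑ j, inf a j := by
    unfold AA
    rw [sum_filter]
    have : ∀ T : Finset ι, (if T.card = 0 + 1 ∧ W a T ≤ η ^ 0 then W a T else 0) =
        if T.card = 1 then W a T else 0 := by
      intro T
      by_cases hT : T.card = 1
      · obtain ⟨j, rfl⟩ := card_eq_one.1 hT
        have : W a {j} ≤ 1 := (inf_le_nrm a j).trans (nrm_le_one hb)
        simp [this]
      · simp [hT]
    simp only [this]
    exact sum_card_one _
  rw [h1, sum_inf]
  refine sum_le_sum fun S _ => ?_
  split_ifs with h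
  · positivity
  · have : (1 : ℝ) ≤ S.card := by
      exact_mod_cast card_pos.2 (nonempty_iff_ne_empty.2 h)
    exact le_mul_of_one_le_left (sq_nonneg _) this

lemma anchor_step (a : Finset ι → ℝ) (η : ℝ) (hη : 0 ≤ η) (r : ℕ) :
    ∑ T ∈ AA a η r, outW a η T ≤ (r + 2) * ∑ T ∈ AA a η (r + 1), W a T := by
  set g : Finset ι → ℝ := fun S => if S ∈ AA a η (r + 1) then W a S else 0 with hg
  have hg0 : ∀ S, 0 ≤ g S := fun S => by
    simp only [hg]; split_ifs
    · exact W_nonneg _ _
    · exact le_rfl
  have h1 : ∀ T ∈ AA a η r, outW a η T ≤ ∑ j, if Disjoint T {j} then g (T ∪ {j}) else 0 := by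
    intro T hT
    obtain ⟨hT1, hT2⟩ := (mem_filter.1 hT).2
    refine (out_le _ _).trans (sum_le_sum fun j _ => ?_)
    by_cases hjN : j ∈ NN a η T
    · simp only [hjN, if_true]
      split_ifs
      · exact hg0 _
      · exact le_rfl
    · have h2 : inf (sh T a) j ≤ η * W a T := by simpa [NN, heavy] using hjN
      simp only [hjN, if_false]
      rw [inf_sh] at h2 ⊢
      by_cases hjT : j ∈ T
      · simp [hjT]
      · have h3 : Disjoint T {j} := by simp [hjT]
        have h4 : T ∪ {j} = insert j T := by
          ext i; simp only [mem_union, mem_singleton, mem_insert]; tauto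
        simp only [hjT, if_false, h3, if_true, h4] at h2 ⊢
        have h5 : insert j T ∈ AA a η (r + 1) := by
          refine mem_filter.2 ⟨mem_univ _, by rw [card_insert_of_notMem hjT, hT1], ?_⟩
          rw [pow_succ']
          exact h2.trans (mul_le_mul_of_nonneg_left hT2 hη)
        simp [hg, h5]
  calc ∑ T ∈ AA a η r, outW a η T
      ≤ ∑ T ∈ AA a η r, ∑ j, if Disjoint T {j} then g (T ∪ {j}) else 0 := sum_le_sum h1
    _ ≤ ∑ T, ∑ j, if Disjoint T {j} then g (T ∪ {j}) else 0 := by
        refine sum_le_sum_of_subset_of_nonneg (subset_univ _) fun T _ _ => ?_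
        refine sum_nonneg fun j _ => ?_
        split_ifs
        · exact hg0 _
        · exact le_rfl
    _ = ∑ j, ∑ S : Finset ι, if ({j} : Finset ι) ⊆ S then g S else 0 := by
        rw [sum_comm]
        exact sum_congr rfl fun j _ => sum_sh {j} (fun S _ => g S)
    _ = ∑ S, (S.card : ℝ) * g S := by
        rw [sum_comm]
        refine sum_congr rfl fun S _ => ?_
        simp only [singleton_subset_iff]
        rw [← sum_filter]; simp
    _ = (r + 2) * ∑ T ∈ AA a η (r + 1), W a T := by
        rw [mul_sum, ← sum_filter_add_sum_filter_not univ (fun S => S ∈ AA a η (r + 1))]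
        have e1 : univ.filter (fun S => S ∈ AA a η (r + 1)) = AA a η (r + 1) := by ext; simp
        rw [e1, sum_eq_zero (s := univ.filter (fun S => ¬ S ∈ AA a η (r + 1))), add_zero]
        · refine sum_congr rfl fun S hS => ?_
          have := (mem_filter.1 hS).2.1
          simp only [hg, hS, if_true, this]
          push_cast; ring
        · intro S hS
          simp [hg, (mem_filter.1 hS).2]

/-- The terminal sets. -/
noncomputable def TT (a : Finset ι → ℝ) (η : ℝ) (r : ℕ) : Finset (Finset ι) :=
  (AA a η r).filter fun T => outW a η T ≤ W a T / 32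

lemma dichotomy {a : Finset ι → ℝ} (hb : Bdd a) (η : ℝ) (hη : 0 ≤ η) (V B : ℝ) (hV0 : 0 ≤ V)
    (hV : V ≤ var a) (k : ℕ) (hB : 64 * ((k : ℝ) + 1) ≤ B) :
    (∃ r < k, V / B ^ k / 2 ≤ ∑ T ∈ TT a η r, W a T) ∨ V / B ^ k ≤ ∑ T ∈ AA a η k, W a T := by
  have hB1 : 1 ≤ B := by nlinarith [Nat.cast_nonneg (α := ℝ) k]
  have key : ∀ s ≤ k, (∃ r < k, V / B ^ k / 2 ≤ ∑ T ∈ TT a η r, W a T) ∨
      V / B ^ s ≤ ∑ T ∈ AA a η s, W a T := by
    intro s
    induction s with
    | zero => intro _; right; simpa using hV.trans (anchor_base hb η)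
    | succ s ih =>
      intro hs
      rcases ih (by omega) with h | h
      · exact Or.inl h
      by_cases hT : V / B ^ k / 2 ≤ ∑ T ∈ TT a η s, W a T
      · exact Or.inl ⟨s, by omega, hT⟩
      right
      push Not at hT
      have h1 : V / B ^ k ≤ V / B ^ s :=
        div_le_div_of_nonneg_left hV0 (by positivity) (pow_le_pow_right₀ hB1 (by omega))
      have h2 := sum_filter_add_sum_filter_not (AA a η s) (fun T => outW a η T ≤ W a T / 32)
        (fun T => W a T)
      have h3 : ∑ T ∈ (AA a η s).filter (fun T => ¬ outW a η T ≤ W a T / 32), W a T / 32 ≤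
          ∑ T ∈ AA a η s, outW a η T := by
        refine le_trans (sum_le_sum fun T hT => (not_le.1 (mem_filter.1 hT).2).le) ?_
        refine sum_le_sum_of_subset_of_nonneg (filter_subset _ _) fun T _ _ => ?_
        exact sum_nonneg fun R _ => by split_ifs <;> positivity
      rw [← sum_div] at h3
      have h4 := anchor_step a η hη s
      unfold TT at hT
      have h5 : V / B ^ s / 64 ≤ (s + 2) * ∑ T ∈ AA a η (s + 1), W a T := by linarith
      have h6 : 0 ≤ ∑ T ∈ AA a η (s + 1), W a T := sum_nonneg fun T _ => W_nonneg _ _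
      have h7 : 64 * ((s : ℝ) + 2) ≤ B := by
        have : ((s + 1 : ℕ) : ℝ) ≤ k := by exact_mod_cast hs
        push_cast at this
        linarith
      rw [pow_succ, ← div_div, div_le_iff₀ (by positivity)]
      nlinarith
  exact key k le_rfl

end Pool.Agent.MP_9e8696_an.H67
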