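import Mathlib
import Pool.Agent.MP_9e8696_an.H67.Anchor

/-!
The top level cannot be reached, and a terminal level produces a small restriction under which
one coordinate is influential.
-/

set_option linter.unusedSectionVars false

namespace Pool.Agent.MP_9e8696_an.H67

open Finset
open scoped BigOperators

variable {ι : Type*} [Fintype ι] [DecidableEq ι]

/-- A vertex pulled slightly into the cube. -/
noncomputable def pt (d : ℕ) (x : ι → Bool) : ι → ℝ := fun i => (1 - 1 / (2 * (d : ℝ))) * sg (x i)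

lemma rho_bounds {d : ℕ} (hd : 1 ≤ d) :
    0 ≤ 1 - 1 / (2 * (d : ℝ)) ∧ 1 - 1 / (2 * (d : ℝ)) ≤ 1 := by
  have hd' : (1 : ℝ) ≤ d := by exact_mod_cast hd
  have h0 : 0 ≤ 1 / (2 * (d : ℝ)) := by positivity
  have h1 : 1 / (2 * (d : ℝ)) ≤ 1 := by
    rw [div_le_one (by positivity)]; linarith
  constructor <;> linarith

lemma abs_rho {d : ℕ} (hd : 1 ≤ d) : |1 - 1 / (2 * (d : ℝ))| ≤ 1 := by
  rw [abs_of_nonneg (rho_bounds hd).1]; exact (rho_bounds hd).2

lemma abs_pt {d : ℕ} (hd : 1 ≤ d) (x : ι → Bool) (i : ι) : |pt d x i| ≤ 1 - 1 / (2 * (d : ℝ)) := by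
  unfold pt
  rw [abs_mul, abs_sg, mul_one, abs_of_nonneg (rho_bounds hd).1]

/-- The heavy set at a point. -/
noncomputable def HH (a : Finset ι → ℝ) (d r : ℕ) (θ : ℝ) (x : ι → Bool) : Finset ι :=
  heavy (lev (r + 1) (tc a (pt d x))) (θ ^ 2)

lemma light {a : Finset ι → ℝ} {d : ℕ} (hd : 1 ≤ d) (ha : DegLe a d) (hb : Bdd a) (r : ℕ)
    (𝒜 : Finset (Finset ι)) (h𝒜 : ∀ T ∈ 𝒜, T.card = r + 1) (C θ : ℝ) (hθ : 0 < θ)
    (hC : (64 * (d : ℝ) ^ 3) ^ (r + 1) ≤ C) :
    (∑ T ∈ 𝒜, W a T) / 4 - C * θ ≤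
      𝔼 x : ι → Bool, ∑ T ∈ 𝒜, if T ⊆ HH a d r θ x then tc a (pt d x) T ^ 2 else 0 := by
  have h1 : (∑ T ∈ 𝒜, W a T) / 4 ≤ 𝔼 x : ι → Bool, ∑ T ∈ 𝒜, tc a (pt d x) T ^ 2 := by
    rw [expect_sum_comm, sum_div]
    exact sum_le_sum fun T _ => expect_F_sq_ge (sh T a) d hd (ha.sh T)
  have h2 : ∀ x : ι → Bool, ∑ T ∈ 𝒜, tc a (pt d x) T ^ 2 ≤
      (∑ T ∈ 𝒜, if T ⊆ HH a d r θ x then tc a (pt d x) T ^ 2 else 0) + C * θ := by
    intro x
    have h3 := heavy_out (lev (r + 1) (tc a (pt d x))) C θ hθ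
      ((littlewood hd ha hb _ (abs_pt hd x) r).trans hC)
    have h4 : (∑ T ∈ 𝒜, if T ⊆ HH a d r θ x then 0 else tc a (pt d x) T ^ 2) ≤ C * θ := by
      refine le_trans ?_ h3
      refine le_trans (le_of_eq ?_) (sum_le_sum_of_subset_of_nonneg (subset_univ 𝒜)
        fun T _ _ => by split_ifs <;> positivity)
      refine sum_congr rfl fun T hT => ?_
      unfold HH lev
      simp only [h𝒜 T hT, if_true]
    have h5 : ∑ T ∈ 𝒜, tc a (pt d x) T ^ 2 =
        (∑ T ∈ 𝒜, if T ⊆ HH a d r θ x then tc a (pt d x) T ^ 2 else 0) +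
          ∑ T ∈ 𝒜, if T ⊆ HH a d r θ x then 0 else tc a (pt d x) T ^ 2 := by
      rw [← sum_add_distrib]
      refine sum_congr rfl fun T _ => ?_
      split_ifs <;> simp
    linarith
  have h6 := expect_le_expect (s := univ) fun x _ => h2 x
  rw [expect_add_distrib, expect_const univ_nonempty] at h6
  linarith

lemma top_impossible {a : Finset ι → ℝ} {d : ℕ} (hd : 1 ≤ d) (ha : DegLe a d) (hb : Bdd a)
    (k : ℕ) (η μ C θ ε : ℝ) (hμ : 0 < μ) (hθ : 0 < θ) (hε : 0 < ε)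
    (hC : (64 * (d : ℝ) ^ 3) ^ (k + 1) ≤ C) (h1 : C * θ ≤ μ / 32)
    (h2 : (C / θ) ^ (k + 1) * ε ≤ μ / 32) (h3 : 64 ^ d * η ^ k ≤ ε / 8) :
    ∑ T ∈ AA a η k, W a T < μ := by
  set m := ∑ T ∈ AA a η k, W a T with hm
  have hm0 : 0 ≤ m := sum_nonneg fun T _ => W_nonneg _ _
  have hl := light hd ha hb k (AA a η k) (fun T hT => (mem_filter.1 hT).2.1) C θ hθ hC
  have hpt : ∀ x : ι → Bool,
      (∑ T ∈ AA a η k, if T ⊆ HH a d k θ x then tc a (pt d x) T ^ 2 else 0) ≤
        μ / 32 + ∑ T ∈ AA a η k, ε⁻¹ * tc a (pt d x) T ^ 4 := by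
    intro x
    have e1 : (∑ T ∈ AA a η k, if T ⊆ HH a d k θ x then tc a (pt d x) T ^ 2 else 0) ≤
        ∑ T ∈ AA a η k, ((if T ⊆ HH a d k θ x then ε else 0) + ε⁻¹ * tc a (pt d x) T ^ 4) := by
      refine sum_le_sum fun T _ => ?_
      set c := tc a (pt d x) T
      split_ifs
      · have : c ^ 2 * ε ≤ (ε + ε⁻¹ * c ^ 4) * ε := by
          have : (ε + ε⁻¹ * c ^ 4) * ε = ε ^ 2 + c ^ 4 := by field_simp
          rw [this]
          nlinarith [sq_nonneg (ε - c ^ 2), mul_nonneg hε.le (sq_nonneg c)]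
        exact le_of_mul_le_mul_right this hε
      · positivity
    rw [sum_add_distrib] at e1
    have e2 : (∑ T ∈ AA a η k, if T ⊆ HH a d k θ x then ε else 0) ≤ μ / 32 := by
      rw [← sum_filter, sum_const, nsmul_eq_mul]
      refine le_trans (mul_le_mul_of_nonneg_right ?_ hε.le) h2
      have e3 : (AA a η k).filter (fun T => T ⊆ HH a d k θ x) ⊆
          powersetCard (k + 1) (HH a d k θ x) := by
        intro T hT
        obtain ⟨hT1, hT2⟩ := mem_filter.1 hT
        exact mem_powersetCard.2 ⟨hT2, (mem_filter.1 hT1).2.1⟩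
      have e4 := (card_le_card e3).trans
        ((card_powersetCard _ _).le.trans (Nat.choose_le_pow _ _))
      have e5 := heavy_card (lev (k + 1) (tc a (pt d x))) C θ hθ
        ((littlewood hd ha hb _ (abs_pt hd x) k).trans hC)
      calc (((AA a η k).filter (fun T => T ⊆ HH a d k θ x)).card : ℝ)
          ≤ ((HH a d k θ x).card : ℝ) ^ (k + 1) := by exact_mod_cast e4
        _ ≤ (C / θ) ^ (k + 1) := pow_le_pow_left₀ (Nat.cast_nonneg _) e5 _
    linarith
  have h6 := expect_le_expect (s := univ) fun x _ => hpt x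
  rw [expect_add_distrib, expect_const univ_nonempty, expect_sum_comm (f := fun x T =>
    ε⁻¹ * tc a (pt d x) T ^ 4)] at h6
  have h7 : ∑ T ∈ AA a η k, 𝔼 x : ι → Bool, ε⁻¹ * tc a (pt d x) T ^ 4 ≤ m / 8 := by
    rw [hm, sum_div]
    refine sum_le_sum fun T hT => ?_
    rw [← mul_expect]
    have e1 := expect_F_four (sh T a) d (ha.sh T) _ (abs_rho hd)
    have e2 : W a T ≤ η ^ k := (mem_filter.1 hT).2.2
    have e3 := W_nonneg a T
    have e4 : 64 ^ d * W a T ^ 2 ≤ ε / 8 * W a T := by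
      calc 64 ^ d * W a T ^ 2 = 64 ^ d * W a T * W a T := by ring
        _ ≤ 64 ^ d * η ^ k * W a T :=
            mul_le_mul_of_nonneg_right (mul_le_mul_of_nonneg_left e2 (by positivity)) e3
        _ ≤ ε / 8 * W a T := mul_le_mul_of_nonneg_right h3 e3
    calc ε⁻¹ * 𝔼 x : ι → Bool, tc a (pt d x) T ^ 4 ≤ ε⁻¹ * (ε / 8 * W a T) :=
          mul_le_mul_of_nonneg_left (e1.trans e4) (inv_pos.2 hε).le
      _ = W a T / 8 := by field_simp
  linarith

lemma expect_piecewise (U : Finset ι) (g : (ι → Bool) → ℝ) :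
    𝔼 x, g x = 𝔼 b : ι → Bool, 𝔼 z : ι → Bool, g (U.piecewise b z) := by
  have hinv : Function.Involutive (fun p : (ι → Bool) × (ι → Bool) =>
      (U.piecewise p.1 p.2, U.piecewise p.2 p.1)) := by
    intro p
    ext i <;> by_cases hi : i ∈ U <;> simp [hi]
  have h1 : 𝔼 p : (ι → Bool) × (ι → Bool), g (U.piecewise p.1 p.2) =
      𝔼 p : (ι → Bool) × (ι → Bool), g p.1 :=
    Fintype.expect_equiv hinv.toPerm _ _ fun _ => rfl
  rw [← univ_product_univ, expect_product, expect_product] at h1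
  rw [h1]
  simp only [expect_const univ_nonempty]

/-- The noisy first moment of a derivative under a restriction. -/
noncomputable def Wit (e : Finset ι → ℝ) (d : ℕ) (U : Finset ι) (b : ι → Bool) : ℝ :=
  𝔼 z : ι → Bool, 𝔼 y : ι → Bool,
    |F e (fun i => pt d (U.piecewise b z) i + 1 / (4 * (d : ℝ)) * sg (y i))|

lemma inf_lev_le {a : Finset ι → ℝ} {d : ℕ} (hd : 1 ≤ d) (ha : DegLe a d) (hb : Bdd a)
    (w : ι → ℝ) (hw : ∀ i, |w i| ≤ 1 - 1 / (2 * (d : ℝ))) (r : ℕ) (j : ι) :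
    ((1 / (4 * (d : ℝ))) ^ r) ^ 2 * inf (lev (r + 1) (tc a w)) j ≤
      8 * (d : ℝ) ^ 3 * 𝔼 y : ι → Bool, |F (sh {j} a) (fun i => w i + 1 / (4 * (d : ℝ)) * sg (y i))| := by
  have hd' : (1 : ℝ) ≤ d := by exact_mod_cast hd
  set t : ℝ := 1 / (4 * (d : ℝ)) with ht
  have ht0 : 0 < t := by positivity
  have ht2 : 1 / (2 * (d : ℝ)) = 2 * t := by rw [ht]; field_simp; norm_num
  have h1 : (t ^ r) ^ 2 * inf (lev (r + 1) (tc a w)) j ≤
      𝔼 y : ι → Bool, F (sh {j} a) (fun i => w i + t * sg (y i)) ^ 2 := by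
    simp only [taylor]
    rw [expect_F_sq, tc_sh_singleton, inf, ← lev_sh, nrm, mul_sum]
    refine sum_le_sum fun S _ => ?_
    unfold lev
    split_ifs with hS
    · rw [hS]
    · simp only [ne_eq, OfNat.ofNat_ne_zero, not_false_eq_true, zero_pow, mul_zero]; positivity
  refine h1.trans ?_
  rw [mul_expect]
  refine expect_le_expect fun y _ => ?_
  have h2 := l1_bound hd ha hb (fun i => w i + t * sg (y i)) (by
    intro i
    have e1 : |t * sg (y i)| = t := by rw [abs_mul, abs_sg, mul_one, abs_of_pos ht0]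
    calc |w i + t * sg (y i)| ≤ |w i| + |t * sg (y i)| := abs_add_le _ _
      _ ≤ 1 - t := by linarith [hw i]) (fun i => if i = j then 1 else 0) (by
    intro i; split_ifs <;> simp)
  simp only [ite_mul, one_mul, zero_mul, sum_ite_eq', mem_univ, if_true] at h2
  rw [← sq_abs, sq]
  exact mul_le_mul_of_nonneg_right h2 (abs_nonneg _)

lemma terminal_witness {a : Finset ι → ℝ} {d : ℕ} (hd : 1 ≤ d) (ha : DegLe a d) (hb : Bdd a)
    (r : ℕ) (η μ C θ : ℝ) (hμ : 0 < μ) (hθ : 0 < θ)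
    (hC : (64 * (d : ℝ) ^ 3) ^ (r + 1) ≤ C) (h1 : C * θ ≤ μ / 32)
    (hm : μ / 2 ≤ ∑ T ∈ TT a η r, W a T) :
    ∃ (T : Finset ι) (j : ι) (b : ι → Bool),
      ((1 / (4 * (d : ℝ))) ^ r) ^ 2 * θ ^ 2 / 32 ≤ 8 * (d : ℝ) ^ 3 * Wit (sh {j} a) d (NN a η T) b := by
  set m := ∑ T ∈ TT a η r, W a T with hmdef
  have hcard : ∀ T ∈ TT a η r, T.card = r + 1 := fun T hT =>
    (mem_filter.1 (mem_filter.1 hT).1).2.1
  have hl := light hd ha hb r (TT a η r) hcard C θ hθ hC
  set ein : Finset ι → Finset ι → ℝ := fun T R => if R ⊆ NN a η T then sh T a R else 0 with hein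
  set eout : Finset ι → Finset ι → ℝ := fun T R => if R ⊆ NN a η T then 0 else sh T a R with heout
  have hsplit : ∀ T w, tc a w T = F (ein T) w + F (eout T) w := by
    intro T w
    unfold tc F
    rw [← sum_add_distrib]
    refine sum_congr rfl fun R _ => ?_
    simp only [hein, heout]
    split_ifs <;> simp
  have hin : ∀ T, 𝔼 x : ι → Bool, F (ein T) (pt d x) ^ 2 ≤ W a T := by
    intro T
    refine (expect_F_sq_le (ein T) _ (abs_rho hd)).trans (sum_le_sum fun R _ => ?_)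
    simp only [hein]
    split_ifs
    · exact le_rfl
    · simp only [ne_eq, OfNat.ofNat_ne_zero, not_false_eq_true, zero_pow]; positivity
  have hout : ∀ T ∈ TT a η r, 𝔼 x : ι → Bool, F (eout T) (pt d x) ^ 2 ≤ W a T / 32 := by
    intro T hT
    refine (expect_F_sq_le (eout T) _ (abs_rho hd)).trans (le_trans (le_of_eq ?_)
      (mem_filter.1 hT).2)
    refine sum_congr rfl fun R _ => ?_
    simp only [heout]
    split_ifs <;> simp
  set φ : Finset ι → (ι → Bool) → ℝ := fun T x =>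
    F (ein T) (pt d x) ^ 2 * ((if T ⊆ HH a d r θ x then 1 else 0) - 1 / 32) with hφ
  have hT : ∀ T ∈ TT a η r,
      𝔼 x : ι → Bool, (if T ⊆ HH a d r θ x then tc a (pt d x) T ^ 2 else 0) ≤
        2 * 𝔼 x, φ T x + W a T / 8 := by
    intro T hT
    have e1 : ∀ x : ι → Bool, (if T ⊆ HH a d r θ x then tc a (pt d x) T ^ 2 else 0) ≤
        2 * φ T x + (1 / 16 * F (ein T) (pt d x) ^ 2 + 2 * F (eout T) (pt d x) ^ 2) := by
      intro x
      simp only [hφ, hsplit]
      split_ifs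
      · nlinarith [sq_nonneg (F (ein T) (pt d x) - F (eout T) (pt d x))]
      · nlinarith [sq_nonneg (F (eout T) (pt d x))]
    have e2 := expect_le_expect (s := univ) fun x _ => e1 x
    rw [expect_add_distrib, expect_add_distrib, ← mul_expect, ← mul_expect, ← mul_expect] at e2
    linarith [hin T, hout T hT]
  rw [expect_sum_comm] at hl
  have h2 := sum_le_sum hT
  rw [sum_add_distrib, ← sum_div, ← mul_sum] at h2
  have h3 : 0 < ∑ T ∈ TT a η r, 𝔼 x, φ T x := by linarith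
  obtain ⟨T, hTm, hTpos⟩ : ∃ T ∈ TT a η r, 0 < 𝔼 x, φ T x := by
    by_contra hcon
    push Not at hcon
    exact absurd (sum_nonpos hcon) (not_le.2 h3)
  rw [expect_piecewise (NN a η T)] at hTpos
  obtain ⟨b, hb'⟩ : ∃ b : ι → Bool, 0 < 𝔼 z : ι → Bool, φ T ((NN a η T).piecewise b z) := by
    by_contra hcon
    push Not at hcon
    exact absurd (expect_le univ_nonempty fun b _ => hcon b) (not_le.2 hTpos)
  have hconst : ∀ z : ι → Bool, F (ein T) (pt d ((NN a η T).piecewise b z)) = F (ein T) (pt d b) := by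
    intro z
    unfold F
    refine sum_congr rfl fun R _ => ?_
    simp only [hein]
    split_ifs with hR
    · congr 1
      refine prod_congr rfl fun i hi => ?_
      unfold pt
      rw [piecewise_eq_of_mem _ _ _ (hR hi)]
    · simp
  simp only [hφ, hconst] at hb'
  rw [← mul_expect, expect_sub_distrib, expect_const univ_nonempty] at hb'
  have hP : 1 / 32 ≤ 𝔼 z : ι → Bool,
      (if T ⊆ HH a d r θ ((NN a η T).piecewise b z) then (1 : ℝ) else 0) := by
    by_contra hcon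
    push Not at hcon
    nlinarith [sq_nonneg (F (ein T) (pt d b))]
  obtain ⟨j, hj⟩ : T.Nonempty := card_pos.1 (by rw [hcard T hTm]; omega)
  refine ⟨T, j, b, ?_⟩
  unfold Wit
  rw [mul_expect]
  have e3 : ∀ z : ι → Bool, ((1 / (4 * (d : ℝ))) ^ r) ^ 2 * θ ^ 2 *
      (if T ⊆ HH a d r θ ((NN a η T).piecewise b z) then (1 : ℝ) else 0) ≤
      8 * (d : ℝ) ^ 3 * 𝔼 y : ι → Bool, |F (sh {j} a)
        (fun i => pt d ((NN a η T).piecewise b z) i + 1 / (4 * (d : ℝ)) * sg (y i))| := by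
    intro z
    refine le_trans ?_ (inf_lev_le hd ha hb _ (abs_pt hd _) r j)
    split_ifs with hz
    · rw [mul_one]
      exact mul_le_mul_of_nonneg_left (mem_filter.1 (hz hj)).2.le (sq_nonneg _)
    · rw [mul_zero]
      exact mul_nonneg (sq_nonneg _) (inf_nonneg _ _)
  refine le_trans ?_ (expect_le_expect fun z _ => e3 z)
  rw [← mul_expect, div_eq_mul_one_div]
  exact mul_le_mul_of_nonneg_left hP (by positivity)

end Pool.Agent.MP_9e8696_an.H67
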