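import Mathlib
import Pool.Agent.MP_9e8696_an.H67.Witness

/-!
Deleting coordinates, and a bound on the number of disjoint restrictions that make distinct
coordinates influential.
-/

set_option linter.unusedSectionVars false

namespace Pool.Agent.MP_9e8696_an.H67

open Finset
open scoped BigOperators

variable {ι : Type*} [Fintype ι] [DecidableEq ι]

/-- Averaging out the coordinates in `Q`. -/
def del (Q : Finset ι) (a : Finset ι → ℝ) (S : Finset ι) : ℝ := if Disjoint S Q then a S else 0

lemma del_empty (a : Finset ι → ℝ) : del ∅ a = a := by funext S; simp [del]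

lemma F_del_insert (Q : Finset ι) (i : ι) (a : Finset ι → ℝ) (w : ι → ℝ) :
    F (del (insert i Q) a) w =
      (F (del Q a) w + F (del Q a) (Function.update w i (- w i))) / 2 := by
  unfold F
  rw [← sum_add_distrib, sum_div]
  refine sum_congr rfl fun S _ => ?_
  unfold del
  by_cases hi : i ∈ S
  · have : ¬ Disjoint S (insert i Q) := by simp [hi]
    rw [if_neg this, prod_update_of_mem hi, ← mul_prod_erase S w hi, sdiff_singleton_eq_erase]
    ring
  · rw [prod_update_of_notMem hi]
    simp only [disjoint_insert_right, hi, not_false_eq_true, true_and]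
    ring

lemma Bdd.del {a : Finset ι → ℝ} (hb : Bdd a) (Q : Finset ι) : Bdd (del Q a) := by
  induction Q using Finset.induction_on with
  | empty => rw [del_empty]; exact hb
  | insert i Q _ ih =>
    intro w hw
    rw [F_del_insert, abs_div, abs_two]
    have h1 := ih w hw
    have h2 := ih (Function.update w i (- w i)) (by
      intro j
      by_cases hj : j = i
      · subst hj; simpa using hw j
      · simpa [hj] using hw j)
    have h3 := abs_add_le (F (H67.del Q a) w) (F (H67.del Q a) (Function.update w i (- w i)))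
    linarith

lemma DegLe.del {a : Finset ι → ℝ} {d : ℕ} (ha : DegLe a d) (Q : Finset ι) :
    DegLe (del Q a) d := by
  intro S hS
  unfold H67.del
  simp [ha S hS]

lemma var_del (a : Finset ι → ℝ) (Q : Finset ι) : var a - ∑ i ∈ Q, inf a i ≤ var (del Q a) := by
  have h := out_le a Qᶜ
  have h1 : (∑ j, if j ∈ Qᶜ then 0 else inf a j) = ∑ i ∈ Q, inf a i := by
    simp only [mem_compl, ite_not]
    rw [← sum_filter]; simp
  rw [h1] at h
  have h2 : var a ≤ var (del Q a) + ∑ S, (if S ⊆ Qᶜ then 0 else a S ^ 2) := by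
    unfold var
    rw [← sum_add_distrib]
    refine sum_le_sum fun S _ => ?_
    unfold del
    simp only [subset_compl_iff_disjoint_right]
    split_ifs <;> simp [sq_nonneg]
  linarith

lemma sh_del (j : ι) (Q : Finset ι) (a : Finset ι → ℝ) :
    sh {j} (del Q a) = if j ∈ Q then 0 else del Q (sh {j} a) := by
  funext R
  by_cases hj : j ∈ Q
  · simp [hj, sh, del]
  · simp only [hj, if_false, sh, del]
    by_cases h1 : Disjoint R Q <;> simp [h1, hj]

lemma NN_del (Q : Finset ι) (a : Finset ι → ℝ) (η : ℝ) (hη : 0 ≤ η) (T : Finset ι) :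
    Disjoint Q (NN (del Q a) η T) := by
  rw [disjoint_left]
  intro i hi hN
  have h1 : η * W (del Q a) T < inf (sh T (del Q a)) i := (mem_filter.1 hN).2
  have h2 : inf (sh T (del Q a)) i = 0 := by
    rw [inf_eq]
    refine sum_eq_zero fun S _ => ?_
    split_ifs with hS
    · have : ¬ Disjoint (S ∪ T) Q := fun h => disjoint_left.1 h (mem_union_left _ hS) hi
      simp [sh, del, this]
    · rfl
  have h3 := mul_nonneg hη (W_nonneg (del Q a) T)
  linarith

lemma Wit_zero (d : ℕ) (U : Finset ι) (b : ι → Bool) : Wit 0 d U b = 0 := by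
  simp [Wit, F_zero]

lemma Wit_del (e : Finset ι → ℝ) (d : ℕ) (U : Finset ι) (b : ι → Bool) (Q : Finset ι)
    (hQ : Disjoint Q U) : Wit (del Q e) d U b ≤ Wit e d U b := by
  induction Q using Finset.induction_on with
  | empty => rw [del_empty]
  | insert i Q _ ih =>
    rw [disjoint_insert_left] at hQ
    refine le_trans ?_ (ih hQ.2)
    set G : (ι → Bool) → (ι → Bool) → ℝ := fun z y =>
      |F (del Q e) (fun i => pt d (U.piecewise b z) i + 1 / (4 * (d : ℝ)) * sg (y i))| with hG
    have h1 : ∀ z y : ι → Bool, |F (del (insert i Q) e)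
        (fun i => pt d (U.piecewise b z) i + 1 / (4 * (d : ℝ)) * sg (y i))| ≤
        1 / 2 * G z y + 1 / 2 * G (flipAt i z) (flipAt i y) := by
      intro z y
      rw [F_del_insert, abs_div, abs_two]
      have e1 : Function.update
          (fun i => pt d (U.piecewise b z) i + 1 / (4 * (d : ℝ)) * sg (y i)) i
          (-(pt d (U.piecewise b z) i + 1 / (4 * (d : ℝ)) * sg (y i))) =
          fun k => pt d (U.piecewise b (flipAt i z)) k + 1 / (4 * (d : ℝ)) * sg (flipAt i y k) := by
        funext k
        by_cases hk : k = i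
        · subst hk
          simp only [Function.update_self, pt, piecewise_eq_of_notMem _ _ _ hQ.1, flipAt, sg_not]
          ring
        · simp only [Function.update_of_ne hk, pt, flipAt]
          by_cases hkU : k ∈ U
          · simp only [piecewise_eq_of_mem _ _ _ hkU]
          · simp only [piecewise_eq_of_notMem _ _ _ hkU, Function.update_of_ne hk]
      rw [e1]
      have := abs_add_le
        (F (del Q e) (fun i => pt d (U.piecewise b z) i + 1 / (4 * (d : ℝ)) * sg (y i)))
        (F (del Q e) (fun k => pt d (U.piecewise b (flipAt i z)) k +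
          1 / (4 * (d : ℝ)) * sg (flipAt i y k)))
      simp only [hG]
      linarith
    have h2 : 𝔼 z, 𝔼 y, G (flipAt i z) (flipAt i y) = 𝔼 z, 𝔼 y, G z y := by
      have e1 : ∀ z, 𝔼 y, G z (flipAt i y) = 𝔼 y, G z y := fun z => expect_flip i (G z)
      simp only [e1]
      exact expect_flip i (fun z => 𝔼 y, G z y)
    calc Wit (del (insert i Q) e) d U b
        ≤ 𝔼 z, 𝔼 y, (1 / 2 * G z y + 1 / 2 * G (flipAt i z) (flipAt i y)) :=
          expect_le_expect fun z _ => expect_le_expect fun y _ => h1 z y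
      _ = 1 / 2 * 𝔼 z, 𝔼 y, G z y + 1 / 2 * 𝔼 z, 𝔼 y, G (flipAt i z) (flipAt i y) := by
          simp only [expect_add_distrib, mul_expect]
      _ = Wit (del Q e) d U b := by rw [h2]; unfold Wit; simp only [hG]; ring

/-- Indicator vector of a set. -/
def idc (A : Finset ι) (i : ι) : ℝ := if i ∈ A then 1 else 0

/-- Set functions of degree at most `D`. -/
def DegS (D : ℕ) : Submodule ℝ (Finset ι → ℝ) :=
  Submodule.span ℝ {Φ | ∃ S : Finset ι, S.card ≤ D ∧ Φ = fun A => ∏ i ∈ S, idc A i}

lemma DegS_mono {D E : ℕ} (h : D ≤ E) : (DegS D : Submodule ℝ (Finset ι → ℝ)) ≤ DegS E :=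
  Submodule.span_mono fun _ ⟨S, hS, h2⟩ => ⟨S, hS.trans h, h2⟩

lemma DegS_const (D : ℕ) (c : ℝ) : (fun _ : Finset ι => c) ∈ DegS D := by
  have h : (fun A : Finset ι => ∏ i ∈ (∅ : Finset ι), idc A i) ∈ DegS D :=
    Submodule.subset_span ⟨∅, by simp, rfl⟩
  have := Submodule.smul_mem _ c h
  convert this using 1
  funext A; simp

lemma DegS_mul_idc {D : ℕ} {Φ : Finset ι → ℝ} (h : Φ ∈ DegS D) (j : ι) :
    (fun A => idc A j * Φ A) ∈ DegS (D + 1) := by
  induction h using Submodule.span_induction with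
  | mem Φ hΦ =>
    obtain ⟨S, hS, rfl⟩ := hΦ
    refine Submodule.subset_span ⟨insert j S, (card_insert_le _ _).trans (by omega), ?_⟩
    funext A
    by_cases hj : j ∈ S
    · have e : idc A j * idc A j = idc A j := by unfold idc; split_ifs <;> simp
      beta_reduce
      rw [insert_eq_of_mem hj, ← mul_prod_erase S (fun i => idc A i) hj, ← mul_assoc, e]
    · rw [prod_insert hj]
  | zero => convert Submodule.zero_mem _ using 1; funext A; simp
  | add Φ Ψ _ _ h1 h2 =>
    convert Submodule.add_mem _ h1 h2 using 1; funext A; simp [mul_add]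
  | smul c Φ _ h1 =>
    convert Submodule.smul_mem _ c h1 using 1; funext A; simp [mul_left_comm]

lemma DegS_mul_affine {D : ℕ} {Φ : Finset ι → ℝ} (h : Φ ∈ DegS D) (α : ℝ) (J : Finset ι)
    (β : ι → ℝ) : (fun A => (α + ∑ j ∈ J, β j * idc A j) * Φ A) ∈ DegS (D + 1) := by
  have h1 := Submodule.smul_mem _ α (DegS_mono (Nat.le_succ D) h)
  have h2 := Submodule.sum_mem (DegS (D + 1)) (t := J)
    (f := fun j => β j • fun A => idc A j * Φ A)
    fun j _ => Submodule.smul_mem _ _ (DegS_mul_idc h j)
  convert Submodule.add_mem _ h1 h2 using 1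
  funext A
  simp [add_mul, sum_mul, mul_assoc]

lemma DegS_F {e : Finset ι → ℝ} {d : ℕ} (he : DegLe e d) (α : ι → ℝ) (J : Finset ι)
    (β : ι → ι → ℝ) : (fun A => F e fun i => α i + ∑ j ∈ J, β i j * idc A j) ∈ DegS d := by
  have h1 : ∀ S : Finset ι,
      (fun A => ∏ i ∈ S, (α i + ∑ j ∈ J, β i j * idc A j)) ∈ DegS S.card := by
    intro S
    induction S using Finset.induction_on with
    | empty => simpa using DegS_const 0 1
    | insert i S hi ih =>
      simp only [prod_insert hi, card_insert_of_notMem hi]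
      exact DegS_mul_affine ih _ _ _
  have h2 := Submodule.sum_mem (DegS d) (t := univ)
    (f := fun S => e S • fun A => ∏ i ∈ S, (α i + ∑ j ∈ J, β i j * idc A j)) (by
      intro S _
      by_cases hS : d < S.card
      · rw [he S hS, zero_smul]; exact Submodule.zero_mem _
      · exact Submodule.smul_mem _ _ (DegS_mono (not_lt.1 hS) (h1 S)))
  convert h2 using 1
  funext A
  simp [F]

lemma DegS_rep {D : ℕ} {Φ : Finset ι → ℝ} (h : Φ ∈ DegS D) :
    ∃ c, DegLe c D ∧ ∀ A, Φ A = F c (idc A) := by
  induction h using Submodule.span_induction with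
  | mem Φ hΦ =>
    obtain ⟨S, hS, rfl⟩ := hΦ
    refine ⟨fun R => if R = S then 1 else 0, ?_, ?_⟩
    · intro R hR
      have : R ≠ S := fun h => by subst h; omega
      simp [this]
    · intro A; simp [F]
  | zero => exact ⟨0, fun _ _ => rfl, fun A => by simp [F]⟩
  | add Φ Ψ _ _ h1 h2 =>
    obtain ⟨c, hc, h1⟩ := h1
    obtain ⟨c', hc', h2⟩ := h2
    refine ⟨c + c', fun S hS => by simp [hc S hS, hc' S hS], fun A => ?_⟩
    simp [h1, h2, F, add_mul, sum_add_distrib]
  | smul r Φ _ h1 =>
    obtain ⟨c, hc, h1⟩ := h1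
    refine ⟨r • c, fun S hS => by simp [hc S hS], fun A => ?_⟩
    simp [h1, F, mul_sum, mul_assoc]

/-- Sensitivity bound for bounded set functions of low degree. -/
lemma sens {D : ℕ} {Φ : Finset ι → ℝ} (h : Φ ∈ DegS D) (M : ℝ) (hM : 0 < M)
    (hb : ∀ A, |Φ A| ≤ M) : |∑ j, (Φ {j} - Φ ∅)| ≤ M * (2 * (D : ℝ) ^ 2) := by
  obtain ⟨c, hc, hrep⟩ := DegS_rep h
  have h1 : ∀ w : ι → ℝ, (∀ i, w i = 0 ∨ w i = 1) → |F c w| ≤ M := by
    intro w hw
    have : w = idc (univ.filter fun i => w i = 1) := by
      funext i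
      rcases hw i with h | h <;> simp [idc, h]
    rw [this, ← hrep]; exact hb _
  have h2 := extract c D hc (fun _ => 1) M hM (fun u hu =>
    bound_of_vertices c 0 1 M one_pos h1 _ fun i => by simpa using hu) 1
  rw [sum_card_one (fun S => c S * ∏ _i ∈ S, (1 : ℝ))] at h2
  have h3 : ∀ j, Φ {j} - Φ ∅ = c {j} := by
    intro j
    rw [hrep, hrep, F, F, ← sum_sub_distrib, sum_eq_single {j}]
    · simp [idc]
    · intro S _ hS
      by_cases h0 : S = ∅
      · subst h0; simp
      · obtain ⟨i, hi, hij⟩ : ∃ i ∈ S, i ≠ j := by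
          by_contra hcon
          push Not at hcon
          rcases subset_singleton_iff.1 (fun i hi => mem_singleton.2 (hcon i hi)) with h | h
          exacts [h0 h, hS h]
        rw [prod_eq_zero hi (by simp [idc, hij]), prod_eq_zero hi (by simp [idc])]
        simp
    · simp
  simpa [h3] using h2

lemma patch_pointwise {a : Finset ι → ℝ} {d : ℕ} (hd : 1 ≤ d) (ha : DegLe a d) (hb : Bdd a)
    (J : Finset ι) (U : ι → Finset ι) (b : ι → ι → Bool)
    (hU : ∀ j ∈ J, ∀ k ∈ J, j ≠ k → Disjoint (U j) (U k)) (z y : ι → Bool) :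
    ∑ j ∈ J, |F (sh {j} a)
      (fun i => pt d ((U j).piecewise (b j) z) i + 1 / (4 * (d : ℝ)) * sg (y i))| ≤
      8 * (d : ℝ) ^ 3 * (2 * ((d : ℝ) + 1) ^ 2) := by
  have hd' : (1 : ℝ) ≤ d := by exact_mod_cast hd
  set t : ℝ := 1 / (4 * (d : ℝ)) with ht
  have ht0 : 0 < t := by positivity
  have ht2 : 1 / (2 * (d : ℝ)) = 2 * t := by rw [ht]; field_simp; norm_num
  set α : ι → ℝ := fun i => pt d z i + t * sg (y i) with hα
  set β : ι → ι → ℝ := fun i j => if i ∈ U j then pt d (b j) i - pt d z i else 0 with hβ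
  set w : Finset ι → ι → ℝ := fun A i => α i + ∑ j ∈ J, β i j * idc A j with hw
  set G : ι → ℝ := fun j => F (sh {j} a)
      (fun i => pt d ((U j).piecewise (b j) z) i + t * sg (y i)) with hG
  set σ : ι → ℝ := fun j => if 0 ≤ G j then 1 else -1 with hσ
  have hσ1 : ∀ j, |σ j| ≤ 1 := by
    intro j; simp only [hσ]; split_ifs <;> simp
  have hσ2 : ∀ j, |G j| = σ j * G j := by
    intro j; simp only [hσ]
    split_ifs with h
    · rw [abs_of_nonneg h, one_mul]
    · rw [abs_of_neg (not_le.1 h)]; ring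
  have hw1 : ∀ A i, |w A i| ≤ 1 - t := by
    intro A i
    have e1 : |t * sg (y i)| = t := by rw [abs_mul, abs_sg, mul_one, abs_of_pos ht0]
    have key : ∀ x : ι → Bool, |pt d x i + t * sg (y i)| ≤ 1 - t := fun x =>
      calc |pt d x i + t * sg (y i)| ≤ |pt d x i| + |t * sg (y i)| := abs_add_le _ _
        _ ≤ 1 - t := by linarith [abs_pt hd x i]
    by_cases hex : ∃ j ∈ J, i ∈ U j ∧ j ∈ A
    · obtain ⟨j, hj, hi, hA⟩ := hex
      have : w A i = pt d (b j) i + t * sg (y i) := by
        simp only [hw]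
        rw [sum_eq_single j]
        · simp [hα, hβ, hi, idc, hA]; ring
        · intro k hk hkj
          have : i ∉ U k := fun h => disjoint_left.1 (hU k hk j hj hkj) h hi
          simp [hβ, this]
        · intro h; exact absurd hj h
      rw [this]; exact key _
    · have : w A i = pt d z i + t * sg (y i) := by
        simp only [hw]
        rw [sum_eq_zero, add_zero]
        intro j hj
        by_cases hi : i ∈ U j
        · have : j ∉ A := fun h => hex ⟨j, hj, hi, h⟩
          simp [idc, this]
        · simp [hβ, hi]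
      rw [this]; exact key _
  have hw2 : ∀ j ∈ J, w {j} = fun i => pt d ((U j).piecewise (b j) z) i + t * sg (y i) := by
    intro j hj
    funext i
    simp only [hw]
    rw [sum_eq_single j]
    · by_cases hi : i ∈ U j
      · simp only [hα, hβ, hi, if_true, idc, mem_singleton, pt, piecewise_eq_of_mem _ _ _ hi]; ring
      · simp only [hα, hβ, hi, if_false, pt, piecewise_eq_of_notMem _ _ _ hi]; ring
    · intro k _ hkj
      simp [idc, hkj]
    · intro h; exact absurd hj h
  set Φ : Finset ι → ℝ := fun A => ∑ j ∈ J, σ j * (idc A j * F (sh {j} a) (w A)) with hΦ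
  have hΦ1 : Φ ∈ DegS (d + 1) := by
    have := Submodule.sum_mem (DegS (d + 1)) (t := J)
      (f := fun j => σ j • fun A => idc A j * F (sh {j} a) (w A))
      fun j _ => Submodule.smul_mem _ _ (DegS_mul_idc (DegS_F (ha.sh {j}) α J β) j)
    convert this using 1
    funext A
    simp [hΦ]
  have hΦ2 : ∀ A, |Φ A| ≤ 8 * (d : ℝ) ^ 3 := by
    intro A
    have := l1_bound hd ha hb (w A) (hw1 A) (fun j => if j ∈ J then σ j * idc A j else 0) (by
      intro j
      split_ifs
      · unfold idc; split_ifs <;> simp [hσ1 j]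
      · simp)
    convert this using 2
    simp only [hΦ, ite_mul, zero_mul, mul_assoc]
    rw [← sum_filter]; simp
  have h := sens hΦ1 _ (by positivity) hΦ2
  have h0 : Φ ∅ = 0 := by simp [hΦ, idc]
  have h1 : ∀ j, Φ {j} = if j ∈ J then |G j| else 0 := by
    intro j
    simp only [hΦ]
    split_ifs with hj
    · rw [sum_eq_single j]
      · rw [hw2 j hj, hσ2]; simp [idc, hG]
      · intro k _ hkj; simp [idc, hkj]
      · intro h; exact absurd hj h
    · refine sum_eq_zero fun k hk => ?_
      have : k ≠ j := fun h => hj (h ▸ hk)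
      simp [idc, this]
  simp only [h0, h1, sub_zero] at h
  rw [← sum_filter] at h
  simp only [filter_mem_eq_inter, univ_inter] at h
  push_cast at h
  exact (le_abs_self _).trans h

lemma patch {a : Finset ι → ℝ} {d : ℕ} (hd : 1 ≤ d) (ha : DegLe a d) (hb : Bdd a)
    (J : Finset ι) (U : ι → Finset ι) (b : ι → ι → Bool)
    (hU : ∀ j ∈ J, ∀ k ∈ J, j ≠ k → Disjoint (U j) (U k)) :
    ∑ j ∈ J, Wit (sh {j} a) d (U j) (b j) ≤ 8 * (d : ℝ) ^ 3 * (2 * ((d : ℝ) + 1) ^ 2) := by
  unfold Wit
  simp only [← expect_sum_comm]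
  exact expect_le univ_nonempty fun z _ => expect_le univ_nonempty fun y _ =>
    patch_pointwise hd ha hb J U b hU z y

end Pool.Agent.MP_9e8696_an.H67
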