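import Mathlib
import Pool.Agent.MP_9e8696_an.H67.Patch

/-!
Choice of parameters and the main estimate in coefficient form.
-/

set_option linter.unusedSectionVars false

namespace Pool.Agent.MP_9e8696_an.H67

open Finset
open scoped BigOperators

variable {ι : Type*} [Fintype ι] [DecidableEq ι]

lemma num_top (V B : ℝ) (hV : 0 < V) (hV1 : V ≤ 1) (hB : 256 ≤ B) (d k m : ℕ) (hk : 1 ≤ k)
    (hkm : d ≤ k * m) :
    64 ^ d * (V ^ 3 / (B ^ (15 * k) * 64 ^ m)) ^ k ≤
      V / B ^ k / 32 * (V / B ^ k / (32 * B ^ (k + 1)) / B ^ (k + 1)) ^ (k + 1) / 8 := by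
  have hB0 : 0 < B := by linarith
  have hB1 : 1 ≤ B := by linarith
  have h1 : (64 : ℝ) ^ d * (V ^ 3 / (B ^ (15 * k) * 64 ^ m)) ^ k ≤
      V ^ (3 * k) / B ^ (15 * k * k) := by
    have e1 : (64 : ℝ) ^ d ≤ 64 ^ (m * k) :=
      pow_le_pow_right₀ (by norm_num) (by rw [mul_comm]; exact hkm)
    calc (64 : ℝ) ^ d * (V ^ 3 / (B ^ (15 * k) * 64 ^ m)) ^ k
        ≤ 64 ^ (m * k) * (V ^ 3 / (B ^ (15 * k) * 64 ^ m)) ^ k :=
          mul_le_mul_of_nonneg_right e1 (by positivity)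
      _ = V ^ (3 * k) / B ^ (15 * k * k) := by
          rw [div_pow, mul_pow, ← pow_mul, ← pow_mul, ← pow_mul]
          field_simp
  have h2 : V ^ (3 * k) / B ^ (15 * k * k) ≤ V ^ (k + 2) / B ^ ((k + 1) + (3 * k + 3) * (k + 1)) := by
    apply div_le_div₀ (by positivity) (pow_le_pow_of_le_one hV.le hV1 (by omega)) (by positivity)
    exact pow_le_pow_right₀ hB1 (by nlinarith)
  have h3 : V / B ^ (3 * k + 3) ≤ V / B ^ k / (32 * B ^ (k + 1)) / B ^ (k + 1) := by
    rw [div_div, div_div]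
    apply div_le_div_of_nonneg_left hV.le (by positivity)
    calc B ^ k * (32 * B ^ (k + 1) * B ^ (k + 1)) = 32 * B ^ (3 * k + 2) := by ring
      _ ≤ B * B ^ (3 * k + 2) := mul_le_mul_of_nonneg_right (by linarith) (by positivity)
      _ = B ^ (3 * k + 3) := by ring
  have h4 : V / B ^ (k + 1) ≤ V / B ^ k / 32 / 8 := by
    rw [div_div, div_div]
    apply div_le_div_of_nonneg_left hV.le (by positivity)
    calc B ^ k * (32 * 8) ≤ B ^ k * B := mul_le_mul_of_nonneg_left (by linarith) (by positivity)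
      _ = B ^ (k + 1) := by ring
  calc _ ≤ V ^ (k + 2) / B ^ ((k + 1) + (3 * k + 3) * (k + 1)) := h1.trans h2
    _ = V / B ^ (k + 1) * (V / B ^ (3 * k + 3)) ^ (k + 1) := by
        rw [div_pow, ← pow_mul, pow_add B (k + 1)]
        field_simp
        ring
    _ ≤ V / B ^ k / 32 / 8 * (V / B ^ k / (32 * B ^ (k + 1)) / B ^ (k + 1)) ^ (k + 1) :=
        mul_le_mul h4 (pow_le_pow_left₀ (by positivity) h3 _) (by positivity) (by positivity)
    _ = _ := by ring

lemma num_wit (V B t : ℝ) (hV : 0 < V) (hB : 256 ≤ B) (ht : 1 / B ≤ t) (k r : ℕ) (hk : 1 ≤ k)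
    (hr : r < k) :
    V ^ 2 / B ^ (11 * k) * B ≤ (t ^ r) ^ 2 * (V / B ^ k / (32 * B ^ (k + 1))) ^ 2 := by
  have hB0 : 0 < B := by linarith
  have hB1 : 1 ≤ B := by linarith
  have h1 : 1 / B ^ k ≤ t ^ r := by
    calc 1 / B ^ k ≤ 1 / B ^ r :=
          div_le_div_of_nonneg_left zero_le_one (by positivity) (pow_le_pow_right₀ hB1 hr.le)
      _ = (1 / B) ^ r := by rw [div_pow, one_pow]
      _ ≤ t ^ r := pow_le_pow_left₀ (by positivity) ht r
  have h2 : V / B ^ (2 * k + 2) ≤ V / B ^ k / (32 * B ^ (k + 1)) := by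
    rw [div_div]
    apply div_le_div_of_nonneg_left hV.le (by positivity)
    calc B ^ k * (32 * B ^ (k + 1)) = 32 * B ^ (2 * k + 1) := by ring
      _ ≤ B * B ^ (2 * k + 1) := mul_le_mul_of_nonneg_right (by linarith) (by positivity)
      _ = B ^ (2 * k + 2) := by ring
  calc V ^ 2 / B ^ (11 * k) * B ≤ V ^ 2 / B ^ (6 * k + 5) * B := by
        refine mul_le_mul_of_nonneg_right ?_ hB0.le
        exact div_le_div_of_nonneg_left (by positivity) (by positivity)
          (pow_le_pow_right₀ hB1 (by omega))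
    _ = (1 / B ^ k) ^ 2 * (V / B ^ (2 * k + 2)) ^ 2 := by
        field_simp
        ring
    _ ≤ _ := mul_le_mul (pow_le_pow_left₀ (by positivity) h1 2)
        (pow_le_pow_left₀ (by positivity) h2 2) (by positivity) (by positivity)

lemma witness {a : Finset ι → ℝ} {d : ℕ} (hd : 1 ≤ d) (ha : DegLe a d) (hb : Bdd a)
    (V : ℝ) (hV : 0 < V) (hVa : V ≤ var a) (k m : ℕ) (hk : 1 ≤ k) (hk2 : k ≤ 2 * d)
    (hkm : d ≤ k * m) (B : ℝ) (hB : B = 256 * (d : ℝ) ^ 3) :
    ∃ (T : Finset ι) (j : ι) (b : ι → Bool),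
      V ^ 2 / B ^ (11 * k) ≤ Wit (sh {j} a) d (NN a (V ^ 3 / (B ^ (15 * k) * 64 ^ m)) T) b := by
  have hd' : (1 : ℝ) ≤ d := by exact_mod_cast hd
  have hd3 : (d : ℝ) ≤ (d : ℝ) ^ 3 := le_self_pow₀ hd' (by norm_num)
  have hB256 : 256 ≤ B := by rw [hB]; nlinarith
  have hB0 : 0 < B := by linarith
  have hB1 : 1 ≤ B := by linarith
  have hV1 : V ≤ 1 := hVa.trans ((var_le_nrm a).trans (nrm_le_one hb))
  have hk2' : (k : ℝ) ≤ 2 * d := by exact_mod_cast hk2
  set η := V ^ 3 / (B ^ (15 * k) * 64 ^ m) with hη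
  have hη0 : 0 < η := by positivity
  set μ := V / B ^ k with hμ
  have hμ0 : 0 < μ := by positivity
  set C := B ^ (k + 1) with hC
  have hC0 : 0 < C := by positivity
  set θ := μ / (32 * C) with hθ
  have hθ0 : 0 < θ := by positivity
  have hCr : ∀ r ≤ k, (64 * (d : ℝ) ^ 3) ^ (r + 1) ≤ C := by
    intro r hr
    calc (64 * (d : ℝ) ^ 3) ^ (r + 1) ≤ B ^ (r + 1) :=
          pow_le_pow_left₀ (by positivity) (by rw [hB]; nlinarith) _
      _ ≤ C := pow_le_pow_right₀ hB1 (by omega)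
  have hCθ : C * θ ≤ μ / 32 := by rw [hθ]; apply le_of_eq; field_simp
  rcases dichotomy hb η hη0.le V B hV.le hVa k (by rw [hB]; nlinarith) with ⟨r, hr, h⟩ | h
  · obtain ⟨T, j, b, hw⟩ := terminal_witness hd ha hb r η μ C θ hμ0 hθ0 (hCr r hr.le) hCθ h
    refine ⟨T, j, b, ?_⟩
    have h1 := num_wit V B (1 / (4 * (d : ℝ))) hV hB256
      (div_le_div_of_nonneg_left zero_le_one (by positivity) (by rw [hB]; nlinarith)) k r hk hr
    refine le_of_mul_le_mul_right ?_ hB0
    rw [← hμ, ← hC, ← hθ] at h1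
    refine h1.trans ?_
    rw [hB]
    linarith
  · exfalso
    have := top_impossible hd ha hb k η μ C θ (μ / 32 * (θ / C) ^ (k + 1)) hμ0 hθ0 (by positivity)
      (hCr k le_rfl) hCθ (by
        apply le_of_eq
        have : (C / θ) ^ (k + 1) * (θ / C) ^ (k + 1) = 1 := by
          rw [← mul_pow]
          have : C / θ * (θ / C) = 1 := by field_simp
          rw [this, one_pow]
        linear_combination μ / 32 * this) (num_top V B hV hV1 hB256 d k m hk hkm)
    linarith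

lemma many_witnesses {a : Finset ι → ℝ} {d : ℕ} (V τ u κ : ℝ) (hκ : 0 < κ)
    (hu : 0 ≤ u) (hτ : ∀ i, inf a i ≤ τ) (hτ0 : 0 ≤ τ) (hVa : 2 * V ≤ var a)
    (hw : ∀ Q : Finset ι, V ≤ var (del Q a) → ∃ (U : Finset ι) (j : ι) (b : ι → Bool),
      (U.card : ℝ) ≤ u ∧ Disjoint Q U ∧ κ ≤ Wit (sh {j} (del Q a)) d U b)
    (n : ℕ) (hn : n * (u + 1) * τ ≤ V) :
    ∃ (J Q : Finset ι) (U : ι → Finset ι) (b : ι → ι → Bool), J.card = n ∧
      (Q.card : ℝ) ≤ n * (u + 1) ∧ J ⊆ Q ∧ (∀ j ∈ J, U j ⊆ Q) ∧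
      (∀ j ∈ J, ∀ k ∈ J, j ≠ k → Disjoint (U j) (U k)) ∧
      ∀ j ∈ J, κ ≤ Wit (sh {j} a) d (U j) (b j) := by
  induction n with
  | zero => exact ⟨∅, ∅, fun _ => ∅, fun _ _ => true, by simp⟩
  | succ n ih =>
    have hn' : n * (u + 1) * τ ≤ V := by
      refine le_trans (mul_le_mul_of_nonneg_right ?_ hτ0) hn
      push_cast
      nlinarith
    obtain ⟨J, Q, U, b, hJ, hQ, hJQ, hUQ, hdis, hwit⟩ := ih hn'
    have h1 : V ≤ var (del Q a) := by
      have e1 := var_del a Q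
      have e2 : ∑ i ∈ Q, inf a i ≤ Q.card * τ := by
        simpa using sum_le_card_nsmul Q (fun i => inf a i) τ fun i _ => hτ i
      have e3 := mul_le_mul_of_nonneg_right hQ hτ0
      linarith
    obtain ⟨U0, j0, b0, hU0, hd0, hw0⟩ := hw Q h1
    have hj0 : j0 ∉ Q := by
      intro h
      rw [sh_del, if_pos h, Wit_zero] at hw0
      linarith
    rw [sh_del, if_neg hj0] at hw0
    have hw1 := hw0.trans (Wit_del _ d U0 b0 Q hd0)
    have hj0J : j0 ∉ J := fun h => hj0 (hJQ h)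
    have hne : ∀ j ∈ J, j ≠ j0 := fun j hj h => hj0J (h ▸ hj)
    refine ⟨insert j0 J, insert j0 (Q ∪ U0), Function.update U j0 U0, Function.update b j0 b0,
      by rw [card_insert_of_notMem hj0J, hJ], ?_, ?_, ?_, ?_, ?_⟩
    · have e1 : (insert j0 (Q ∪ U0)).card ≤ Q.card + U0.card + 1 :=
        (card_insert_le _ _).trans (Nat.succ_le_succ (card_union_le _ _))
      have e2 : ((insert j0 (Q ∪ U0)).card : ℝ) ≤ Q.card + U0.card + 1 := by exact_mod_cast e1
      push_cast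
      linarith
    · exact insert_subset_insert _ (hJQ.trans subset_union_left)
    · intro j hj
      rcases mem_insert.1 hj with rfl | hj
      · rw [Function.update_self]
        exact subset_union_right.trans (subset_insert _ _)
      · rw [Function.update_of_ne (hne j hj)]
        exact (hUQ j hj).trans (subset_union_left.trans (subset_insert _ _))
    · intro j hj k hk hjk
      rcases mem_insert.1 hj with hj' | hj' <;> rcases mem_insert.1 hk with hk' | hk'
      · exact absurd (hj'.trans hk'.symm) hjk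
      · rw [hj', Function.update_self, Function.update_of_ne (hne k hk')]
        exact (hd0.mono_left (hUQ k hk')).symm
      · rw [hk', Function.update_self, Function.update_of_ne (hne j hj')]
        exact hd0.mono_left (hUQ j hj')
      · rw [Function.update_of_ne (hne j hj'), Function.update_of_ne (hne k hk')]
        exact hdis j hj' k hk' hjk
    · intro j hj
      rcases mem_insert.1 hj with rfl | hj
      · rw [Function.update_self, Function.update_self]; exact hw1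
      · rw [Function.update_of_ne (hne j hj), Function.update_of_ne (hne j hj)]
        exact hwit j hj

/-- Main estimate with free parameters. -/
lemma main_param {a : Finset ι → ℝ} {d : ℕ} (hd : 1 ≤ d) (ha : DegLe a d) (hb : Bdd a)
    (k m : ℕ) (hk : 1 ≤ k) (hk2 : k ≤ 2 * d) (hkm : d ≤ k * m) (τ : ℝ) (hτ0 : 0 ≤ τ)
    (hτ : ∀ i, inf a i ≤ τ) :
    var a ^ 6 ≤ (256 * (d : ℝ) ^ 3) ^ (30 * k) * 64 ^ m * τ := by
  have hvar0 : 0 ≤ var a := sum_nonneg fun S _ => by split_ifs <;> positivity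
  rcases hvar0.eq_or_lt with h0 | hpos
  · rw [← h0]; simp only [ne_eq, OfNat.ofNat_ne_zero, not_false_eq_true, zero_pow]; positivity
  set B := 256 * (d : ℝ) ^ 3 with hB
  have hd' : (1 : ℝ) ≤ d := by exact_mod_cast hd
  have hd3 : (d : ℝ) ≤ (d : ℝ) ^ 3 := le_self_pow₀ hd' (by norm_num)
  have hB256 : 256 ≤ B := by rw [hB]; nlinarith
  have hB0 : 0 < B := by linarith
  have hB1 : 1 ≤ B := by linarith
  set V := var a / 2 with hV
  have hV0 : 0 < V := by positivity
  have hV1 : V ≤ 1 := by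
    have := (var_le_nrm a).trans (nrm_le_one hb)
    linarith
  set η := V ^ 3 / (B ^ (15 * k) * 64 ^ m) with hη
  have hη0 : 0 < η := by positivity
  have hη1 : η ≤ 1 := by
    rw [hη, div_le_one (by positivity)]
    exact (pow_le_one₀ hV0.le hV1).trans
      (one_le_mul_of_one_le_of_one_le (one_le_pow₀ hB1) (one_le_pow₀ (by norm_num)))
  set κ := V ^ 2 / B ^ (11 * k) with hκ
  have hκ0 : 0 < κ := by positivity
  have hκ1 : κ ≤ 1 := by
    rw [hκ, div_le_one (by positivity)]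
    exact (pow_le_one₀ hV0.le hV1).trans (one_le_pow₀ hB1)
  set P := 8 * (d : ℝ) ^ 3 * (2 * ((d : ℝ) + 1) ^ 2) with hP
  have hP0 : 0 < P := by positivity
  set n := ⌊P / κ⌋₊ + 1 with hn
  have hn1 : P / κ < n := by rw [hn]; push_cast; exact Nat.lt_floor_add_one _
  have hn2 : (n : ℝ) ≤ P / κ + 1 := by
    rw [hn]; push_cast
    linarith [Nat.floor_le (show 0 ≤ P / κ by positivity)]
  have hcon : V < n * (d / η + 1) * τ := by
    by_contra hcon
    push Not at hcon
    obtain ⟨J, Q, U, b, hJ, -, -, -, hdis, hwit⟩ := many_witnesses (d := d) V τ (d / η) κ hκ0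
      (by positivity) hτ hτ0 (by rw [hV]; linarith) (by
        intro Q hQ
        obtain ⟨T, j, b, hw⟩ := witness hd (ha.del Q) (hb.del Q) V hV0 hQ k m hk hk2 hkm B hB
        exact ⟨_, j, b, NN_card (ha.del Q) η hη0 T, NN_del Q a η hη0.le T, hw⟩) n hcon
    have h1 := patch hd ha hb J U b hdis
    have h2 : (n : ℝ) * κ ≤ ∑ j ∈ J, Wit (sh {j} a) d (U j) (b j) := by
      rw [← hJ]
      simpa using card_nsmul_le_sum J (fun j => Wit (sh {j} a) d (U j) (b j)) κ hwit
    rw [div_lt_iff₀ hκ0] at hn1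
    linarith
  have h3 : (n : ℝ) ≤ B ^ 2 / 256 / κ := by
    refine hn2.trans ?_
    rw [le_div_iff₀ hκ0, add_mul, div_mul_cancel₀ _ hκ0.ne']
    have e1 : ((d : ℝ) + 1) ^ 2 ≤ 4 * (d : ℝ) ^ 3 := by nlinarith
    have e2 : 1 ≤ (d : ℝ) ^ 3 := hd'.trans hd3
    rw [hP, hB]
    nlinarith
  have h4 : d / η + 1 ≤ B / η := by
    rw [le_div_iff₀ hη0, add_mul, div_mul_cancel₀ _ hη0.ne', hB]
    nlinarith
  have h5 : V ≤ B ^ 2 / 256 / κ * (B / η) * τ := by
    refine hcon.le.trans (mul_le_mul_of_nonneg_right ?_ hτ0)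
    exact mul_le_mul h3 h4 (by positivity) (by positivity)
  have h6 : B ^ 2 / 256 / κ * (B / η) * τ = B ^ (26 * k + 3) * 64 ^ m * τ / (256 * V ^ 5) := by
    rw [hκ, hη]
    field_simp
    ring
  rw [h6, le_div_iff₀ (by positivity)] at h5
  have h7 : var a ^ 6 ≤ V * (256 * V ^ 5) := by
    rw [hV]; nlinarith [pow_pos hpos 6]
  refine h7.trans (h5.trans ?_)
  refine mul_le_mul_of_nonneg_right (mul_le_mul_of_nonneg_right ?_ (by positivity)) hτ0
  exact pow_le_pow_right₀ hB1 (by omega)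

end Pool.Agent.MP_9e8696_an.H67
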