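import Mathlib
import Pool.Agent.MP_9e8696_an.H67.Main

/-!
Optimal choice of the parameters, and the passage from functions to coefficients.
-/

set_option linter.unusedSectionVars false

namespace Pool.Agent.MP_9e8696_an.H67

open Finset
open scoped BigOperators

variable {ι : Type*} [Fintype ι] [DecidableEq ι]

lemma choose_param (d : ℕ) (hd : 1 ≤ d) : ∃ k m : ℕ, 1 ≤ k ∧ k ≤ 2 * d ∧ d ≤ k * m ∧
    (256 * (d : ℝ) ^ 3) ^ (30 * k) * 64 ^ m ≤
      Real.exp (738 * Real.sqrt (d * Real.log (2 * d))) := by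
  have hd' : (1 : ℝ) ≤ d := by exact_mod_cast hd
  set L := Real.log (2 * d) with hL
  have hL1 : 1 / 2 ≤ L := by
    have h1 : Real.log 2 ≤ L := Real.log_le_log (by norm_num) (by linarith)
    linarith [Real.log_two_gt_d9]
  have hL0 : 0 < L := by linarith
  have hL2 : L ≤ 2 * d := (Real.log_le_sub_one_of_pos (by linarith)).trans (by linarith)
  set s := Real.sqrt (d * L) with hs
  set q := Real.sqrt (d / L) with hq
  have hq0 : 0 < q := Real.sqrt_pos.2 (by positivity)
  have hs0 : 0 < s := Real.sqrt_pos.2 (by positivity)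
  have hqs : q * s = d := by
    rw [hq, hs, ← Real.sqrt_mul (by positivity)]
    have : (d : ℝ) / L * (d * L) = d ^ 2 := by field_simp
    rw [this, Real.sqrt_sq (by positivity)]
  have hss : s * s = d * L := Real.mul_self_sqrt (by positivity)
  have hqL : q * L = s := by
    have : q * L * s = s * s := by rw [hss, ← hqs]; ring
    exact mul_right_cancel₀ hs0.ne' this
  have hs1 : 1 / 2 ≤ s := Real.le_sqrt_of_sq_le (by nlinarith)
  have hLs : L ≤ 2 * s := by
    have : L / 2 ≤ s := Real.le_sqrt_of_sq_le (by nlinarith)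
    linarith
  have hq2 : q ≤ 2 * d := by
    rw [hq, Real.sqrt_le_iff]
    refine ⟨by positivity, ?_⟩
    rw [div_le_iff₀ hL0]
    nlinarith [mul_le_mul hd' hL1 (by norm_num) (by positivity)]
  refine ⟨⌈q⌉₊, ⌈s⌉₊, Nat.ceil_pos.2 hq0, Nat.ceil_le.2 (by push_cast; exact hq2), ?_, ?_⟩
  · have : (d : ℝ) ≤ (⌈q⌉₊ : ℝ) * (⌈s⌉₊ : ℝ) := by
      rw [← hqs]
      exact mul_le_mul (Nat.le_ceil q) (Nat.le_ceil s) hs0.le (Nat.cast_nonneg _)
    exact_mod_cast this
  · have h1 : 256 * (d : ℝ) ^ 3 ≤ Real.exp (8 * L) := by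
      have e1 : Real.exp (8 * L) = (2 * (d : ℝ)) ^ 8 := by
        rw [show (8 : ℝ) * L = (8 : ℕ) * L by norm_num, Real.exp_nat_mul, hL,
          Real.exp_log (by positivity)]
      rw [e1, mul_pow]
      have : (d : ℝ) ^ 3 ≤ (d : ℝ) ^ 8 := pow_le_pow_right₀ hd' (by norm_num)
      linarith
    have h2 : (64 : ℝ) ≤ Real.exp 6 := by
      have e1 : (2 : ℝ) ≤ Real.exp 1 := by linarith [Real.add_one_le_exp (1 : ℝ)]
      calc (64 : ℝ) = 2 ^ 6 := by norm_num
        _ ≤ Real.exp 1 ^ 6 := pow_le_pow_left₀ (by norm_num) e1 6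
        _ = Real.exp 6 := by rw [← Real.exp_nat_mul]; norm_num
    have h3 : (⌈q⌉₊ : ℝ) ≤ q + 1 := (Nat.ceil_lt_add_one hq0.le).le
    have h4 : (⌈s⌉₊ : ℝ) ≤ s + 1 := (Nat.ceil_lt_add_one hs0.le).le
    calc (256 * (d : ℝ) ^ 3) ^ (30 * ⌈q⌉₊) * 64 ^ ⌈s⌉₊
        ≤ Real.exp (8 * L) ^ (30 * ⌈q⌉₊) * Real.exp 6 ^ ⌈s⌉₊ :=
          mul_le_mul (pow_le_pow_left₀ (by positivity) h1 _)
            (pow_le_pow_left₀ (by norm_num) h2 _) (by positivity) (by positivity)
      _ = Real.exp (240 * (⌈q⌉₊ * L) + 6 * ⌈s⌉₊) := by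
          rw [← Real.exp_nat_mul, ← Real.exp_nat_mul, ← Real.exp_add]
          congr 1
          push_cast
          ring
      _ ≤ Real.exp (738 * s) := by
          apply Real.exp_le_exp.2
          have : (⌈q⌉₊ : ℝ) * L ≤ (q + 1) * L := mul_le_mul_of_nonneg_right h3 hL0.le
          nlinarith

lemma main_coeff [Nonempty ι] {a : Finset ι → ℝ} {d : ℕ} (hd : 1 ≤ d) (ha : DegLe a d)
    (hb : Bdd a) :
    ∃ j, var a ^ 6 * Real.exp (-(738 * Real.sqrt (d * Real.log (2 * d)))) ≤ inf a j := by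
  obtain ⟨j, -, hj⟩ := exists_max_image univ (inf a) univ_nonempty
  obtain ⟨k, m, hk, hk2, hkm, hle⟩ := choose_param d hd
  have h := main_param hd ha hb k m hk hk2 hkm (inf a j) (inf_nonneg a j) fun i => hj i (mem_univ i)
  refine ⟨j, ?_⟩
  rw [Real.exp_neg, ← div_eq_mul_inv, div_le_iff₀ (Real.exp_pos _), mul_comm]
  exact h.trans (mul_le_mul_of_nonneg_right hle (inf_nonneg a j))

/-- Fourier coefficients of a function on the cube. -/
noncomputable def fc (f : (ι → Bool) → ℝ) (S : Finset ι) : ℝ := 𝔼 x, f x * chi S x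

lemma sum_chi_chi (x y : ι → Bool) :
    ∑ S, chi S y * chi S x = if y = x then (Fintype.card (ι → Bool) : ℝ) else 0 := by
  have h1 : ∑ S, chi S y * chi S x = ∏ i, (sg (y i) * sg (x i) + 1) := by
    rw [prod_add_one, powerset_univ]
    refine sum_congr rfl fun S _ => ?_
    unfold chi
    rw [prod_mul_distrib]
  rw [h1]
  split_ifs with h
  · subst h
    simp [sg_sq]
    norm_num
  · obtain ⟨i, hi⟩ := Function.ne_iff.1 h
    refine prod_eq_zero (mem_univ i) ?_
    cases hx : x i <;> cases hy : y i <;> simp_all [sg]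

lemma fourier_inv (f : (ι → Bool) → ℝ) (x : ι → Bool) : ∑ S, fc f S * chi S x = f x := by
  unfold fc
  simp only [expect_mul, mul_assoc]
  rw [← expect_sum_comm]
  simp only [← mul_sum, sum_chi_chi]
  rw [Fintype.expect_eq_sum_div_card]
  have hcard : (0 : ℝ) < Fintype.card (ι → Bool) := by exact_mod_cast Fintype.card_pos
  simp only [mul_ite, mul_zero, sum_ite_eq', mem_univ, if_true]
  field_simp

lemma F_fc (f : (ι → Bool) → ℝ) (x : ι → Bool) : F (fc f) (fun i => sg (x i)) = f x :=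
  fourier_inv f x

lemma bdd_fc (f : (ι → Bool) → ℝ) (hf : ∀ x, |f x| ≤ 1) : Bdd (fc f) := by
  intro w hw
  refine bound_of_vertices (fc f) (-1) 1 1 (by norm_num) ?_ w fun i => abs_le.1 (hw i)
  intro v hv
  have : v = fun i => sg (decide (v i = -1)) := by
    funext i
    rcases hv i with h | h
    · simp [sg, h]
    · rw [h]; norm_num [sg]
  rw [this, F_fc]
  exact hf _

lemma var_fc (f : (ι → Bool) → ℝ) : var (fc f) = 𝔼 x, f x ^ 2 - (𝔼 x, f x) ^ 2 := by
  have h1 : 𝔼 x, f x ^ 2 = nrm (fc f) := by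
    rw [← parseval]; simp only [fourier_inv]
  have h2 : 𝔼 x, f x = fc f ∅ := by simp [fc, chi]
  rw [h1, h2, var, nrm, ← add_sum_erase univ _ (mem_univ ∅), ← add_sum_erase univ _ (mem_univ ∅)]
  simp only [if_true, zero_add, add_sub_cancel_left]
  exact sum_congr rfl fun S hS => by rw [if_neg (ne_of_mem_erase hS)]

lemma inf_fc (f : (ι → Bool) → ℝ) (j : ι) :
    inf (fc f) j =
      𝔼 x, ((f (Function.update x j false) - f (Function.update x j true)) / 2) ^ 2 := by
  rw [inf, ← parseval]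
  refine expect_congr rfl fun x _ => ?_
  congr 1
  rw [← F_fc f, ← F_fc f]
  change F (sh {j} (fc f)) (fun i => sg (x i)) = _
  rw [F_sh, F, F, ← sum_sub_distrib, sum_div]
  refine sum_congr rfl fun S _ => ?_
  have e : ∀ c : Bool, (fun i => sg (Function.update x j c i)) =
      Function.update (fun i => sg (x i)) j (sg c) := by
    intro c
    funext i
    by_cases hi : i = j
    · subst hi; simp
    · simp [hi]
  simp only [e, singleton_subset_iff]
  split_ifs with hj
  · rw [prod_update_of_mem hj, prod_update_of_mem hj]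
    simp only [sg, if_true, Bool.false_eq_true, if_false]
    ring
  · rw [prod_update_of_notMem hj, prod_update_of_notMem hj]
    ring

end Pool.Agent.MP_9e8696_an.H67
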